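import Mathlib.Order.ConditionallyCompleteLattice.Basic
import Mathlib.Order.Interval.Finset.Nat
import Mathlib.Data.Fintype.BigOperators
import Mathlib.RingTheory.Coprime.Lemmas
import Mathlib.Data.Int.ModEq
import Mathlib.Data.Int.Interval
import Mathlib.Tactic.LinearCombination
import Mathlib.Data.Int.ConditionallyCompleteOrder
import Mathlib.Data.Real.Basic

-- ======== part 0: formerly Pool.Agent.MP_574b9b_nt.Spec
section MrgPart0

set_option autoImplicit false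

open Finset

namespace Pool.Agent.MP_574b9b_nt

/-- A `q`-adic estimate for two logarithms with linear dependence on the height. -/
def TwoLogStmt : Prop :=
  ∀ q : ℕ, Odd q → 5 ≤ q → ∀ A : ℕ, ∃ A' k0 : ℕ, ∀ k, k0 ≤ k → ∀ N i e : ℕ,
    k ≤ 2 * N → N ≤ 2 * k → k ≤ A * i → A' * e ≤ k → ∀ U Θ : ℤ, Θ ≠ 0 →
      |U| ≤ 2 ^ e → |Θ| ≤ 2 ^ e → ¬ (q : ℤ) ^ i ∣ 2 ^ N * U + Θ

/-- Partial sums of the block counts. -/
def II (D : ℕ → ℕ) (b : ℕ) : ℕ := ∑ c ∈ range b, D c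

/-- Block `b` is white for the frequency `θ`. -/
def White (R A K : ℕ) (qi θ : ℤ) (D : ℕ → ℕ) (b : ℕ) : Prop :=
  0 < D b ∧ D b < R ∧
    (2 : ℤ) ^ K ≤ A * |Int.bmod (θ * 2 ^ (R * b + D b - 1) * qi ^ (II D b + D b)) (2 ^ K)|

instance (R A K : ℕ) (qi θ : ℤ) (D : ℕ → ℕ) : DecidablePred (White R A K qi θ D) :=
  fun b => by unfold White; infer_instance

/-- Typical sequences of block counts. -/
def Typ (R T j : ℕ) (D : ℕ → ℕ) : Prop :=
  ∀ τ, τ < T → R * j ≤ 4 * ∑ b ∈ Ico (τ * j) ((τ + 1) * j), D b ∧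
    ((Ico (τ * j) ((τ + 1) * j)).filter (fun b => D b = 0 ∨ D b = R)).card * 2 ^ R ≤ 4 * j

/-- The double interval that starts at block `τ * j` has no small lattice point. -/
def Good (q R j K : ℕ) (D : ℕ → ℕ) (τ : ℕ) : Prop :=
  ∀ θ Y : ℤ, |θ| ≤ 2 ^ (j + 1) → (q : ℤ) ^ II D ((τ + 2) * j) ∣ Y →
    |Y| ≤ (q : ℤ) ^ II D (τ * j) * 2 ^ K → (2 : ℤ) ^ K ∣ Y - θ * 2 ^ (R * (τ * j + 1)) → θ = 0

/-- Each of `G` disjoint windows contains a good double interval. -/
def WinStmt : Prop :=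
  ∀ q : ℕ, Odd q → 5 ≤ q → ∀ R : ℕ, 16 ≤ R → ∀ G : ℕ, ∃ (T j0 : ℕ) (a : ℕ → ℕ), 1 ≤ T ∧
    Monotone a ∧ a G ≤ T ∧ ∀ j, j0 ≤ j → ∀ m, T * j ≤ m → m ≤ (T + 1) * j →
      ∀ D : ℕ → ℕ, (∀ b, D b ≤ R) → Typ R T j D → ∀ g, g < G →
        ∃ τ, a g ≤ τ ∧ τ + 2 ≤ a (g + 1) ∧ Good q R j (R * m + j) D τ

/-- Few frequencies have few white blocks. -/
def CoreStmt : Prop :=
  ∀ q : ℕ, Odd q → 5 ≤ q → ∀ ρ : ℝ, 1 < ρ → ∃ R A : ℕ, 16 ≤ R ∧ 2 ≤ A ∧ ∀ C : ℕ,
    ∃ T G j0 : ℕ, 1 ≤ T ∧ ∀ j, j0 ≤ j → ∀ m, T * j ≤ m → m ≤ (T + 1) * j → ∀ qi : ℤ,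
      (q : ℤ) * qi ≡ 1 [ZMOD 2 ^ (R * m + j)] → ∀ D : ℕ → ℕ, (∀ b, D b ≤ R) → Typ R T j D →
        (((Icc (-(2 : ℤ) ^ j) (2 ^ j)).filter (fun θ =>
          ((range m).filter (White R A (R * m + j) qi θ D)).card ≤ C * j)).card : ℝ) ≤ G * ρ ^ j

end Pool.Agent.MP_574b9b_nt

end MrgPart0

-- ======== part 1: formerly Pool.Agent.MP_574b9b_nt.Dyn
section MrgPart1

set_option autoImplicit false

open Finset

namespace Pool.Agent.MP_574b9b_nt

def T (q n : ℕ) : ℕ := if n % 2 = 0 then n / 2 else (q * n + 1) / 2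

def word (q R y : ℕ) : Finset ℕ := (range R).filter (fun t => (T q)^[t] y % 2 = 1)

def psi (qi : ℤ) (z : Finset ℕ) : ℤ := ∑ t ∈ z, 2 ^ t * qi ^ (z.filter (· ≤ t)).card

lemma two_T_even {q n : ℕ} (h : ¬ n % 2 = 1) : 2 * T q n = n := by
  unfold T; rw [if_pos (by omega)]; omega

lemma two_T_odd {q n : ℕ} (hq : Odd q) (h : n % 2 = 1) : 2 * T q n = q * n + 1 := by
  unfold T; rw [if_neg (by omega)]
  have : (q * n) % 2 = 1 := by
    rw [Nat.mul_mod, h, Nat.odd_iff.1 hq]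
  omega

lemma word_sub (q R y : ℕ) : word q R y ⊆ range R := filter_subset _ _

lemma word_succ_odd {q R y : ℕ} (h : (T q)^[R] y % 2 = 1) :
    word q (R + 1) y = insert R (word q R y) := by
  unfold word; rw [range_add_one, filter_insert, if_pos h]

lemma word_succ_even {q R y : ℕ} (h : ¬ (T q)^[R] y % 2 = 1) :
    word q (R + 1) y = word q R y := by
  unfold word; rw [range_add_one, filter_insert, if_neg h]

lemma psi_insert (qi : ℤ) (z : Finset ℕ) (R : ℕ) (h : z ⊆ range R) :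
    psi qi (insert R z) = psi qi z + 2 ^ R * qi ^ (z.card + 1) := by
  have hR : R ∉ z := fun hh => by simpa using h hh
  unfold psi
  rw [sum_insert hR, add_comm]
  congr 1
  · refine sum_congr rfl fun t ht => ?_
    have : t < R := by simpa using h ht
    rw [filter_insert, if_neg (by omega)]
  · rw [filter_true_of_mem, card_insert_of_notMem hR]
    intro t ht
    rcases mem_insert.1 ht with rfl | ht
    · exact le_rfl
    · have : t < R := by simpa using h ht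
      omega

lemma block_cong {q : ℕ} (hq : Odd q) {M qi : ℤ} (hqi : (q : ℤ) * qi ≡ 1 [ZMOD M]) (y R : ℕ) :
    2 ^ R * qi ^ (word q R y).card * ((T q)^[R] y : ℕ) ≡ y + psi qi (word q R y) [ZMOD M] := by
  induction R with
  | zero => simp [word, psi]
  | succ R ih =>
    rw [Function.iterate_succ_apply']
    by_cases h : (T q)^[R] y % 2 = 1
    · have hR : R ∉ word q R y := fun hh => by simpa using word_sub _ _ _ hh
      rw [word_succ_odd h, psi_insert _ _ _ (word_sub _ _ _), card_insert_of_notMem hR]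
      have h2 : (2 : ℤ) * (T q ((T q)^[R] y) : ℕ) = q * ((T q)^[R] y : ℕ) + 1 := by
        exact_mod_cast two_T_odd hq h
      have h3 : (2 : ℤ) ^ (R + 1) * qi ^ ((word q R y).card + 1) * (T q ((T q)^[R] y) : ℕ) =
          2 ^ R * qi ^ (word q R y).card * ((T q)^[R] y : ℕ) * (q * qi) +
            2 ^ R * qi ^ ((word q R y).card + 1) := by
        rw [pow_succ, pow_succ]
        linear_combination (2 ^ R * qi ^ (word q R y).card * qi) * h2
      rw [h3, ← add_assoc]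
      refine Int.ModEq.add_right _ ?_
      simpa using ih.mul hqi
    · rw [word_succ_even h]
      have h2 : (2 : ℤ) * (T q ((T q)^[R] y) : ℕ) = ((T q)^[R] y : ℕ) := by
        exact_mod_cast two_T_even h
      have h3 : (2 : ℤ) ^ (R + 1) * qi ^ (word q R y).card * (T q ((T q)^[R] y) : ℕ) =
          2 ^ R * qi ^ (word q R y).card * ((T q)^[R] y : ℕ) := by
        rw [pow_succ]
        linear_combination (2 ^ R * qi ^ (word q R y).card) * h2
      rw [h3]; exact ih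

lemma block_grow {q : ℕ} (hq : Odd q) (y R : ℕ) :
    q ^ (word q R y).card * y ≤ 2 ^ R * (T q)^[R] y := by
  induction R with
  | zero => simp [word]
  | succ R ih =>
    rw [Function.iterate_succ_apply', pow_succ, mul_assoc]
    by_cases h : (T q)^[R] y % 2 = 1
    · have hR : R ∉ word q R y := fun hh => by simpa using word_sub _ _ _ hh
      rw [word_succ_odd h, card_insert_of_notMem hR, two_T_odd hq h, pow_succ]
      calc q ^ (word q R y).card * q * y = q * (q ^ (word q R y).card * y) := by ring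
        _ ≤ q * (2 ^ R * (T q)^[R] y) := Nat.mul_le_mul_left _ ih
        _ = 2 ^ R * (q * (T q)^[R] y) := by ring
        _ ≤ _ := Nat.mul_le_mul_left _ (Nat.le_succ _)
    · rw [word_succ_even h, two_T_even h]; exact ih

lemma T_modEq {q : ℕ} (hq : Odd q) {s y y' : ℕ} (h : y ≡ y' [MOD 2 ^ (s + 1)]) :
    T q y ≡ T q y' [MOD 2 ^ s] := by
  have h2 : y % 2 = y' % 2 := h.of_dvd (Dvd.intro_left _ (pow_succ 2 s).symm)
  refine Nat.ModEq.mul_left_cancel' (c := 2) two_ne_zero ?_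
  rw [← pow_succ']
  by_cases h1 : y % 2 = 1
  · rw [two_T_odd hq h1, two_T_odd hq (h2 ▸ h1)]
    exact (h.mul_left q).add_right 1
  · rw [two_T_even h1, two_T_even (h2 ▸ h1)]; exact h

lemma iter_modEq {q : ℕ} (hq : Odd q) (t : ℕ) : ∀ {s y y' : ℕ}, y ≡ y' [MOD 2 ^ (s + t)] →
    (T q)^[t] y ≡ (T q)^[t] y' [MOD 2 ^ s] := by
  induction t with
  | zero => intro s y y' h; simpa using h
  | succ t ih =>
    intro s y y' h
    rw [Function.iterate_succ_apply, Function.iterate_succ_apply]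
    exact ih (T_modEq hq h)

lemma word_period {q : ℕ} (hq : Odd q) {j y y' : ℕ} (h : y ≡ y' [MOD 2 ^ j]) :
    word q j y = word q j y' := by
  unfold word
  refine filter_congr fun t ht => ?_
  have ht' : 1 + t ≤ j := by have := mem_range.1 ht; omega
  have h1 : (T q)^[t] y ≡ (T q)^[t] y' [MOD 2 ^ 1] :=
    iter_modEq hq t (h.of_dvd (pow_dvd_pow 2 ht'))
  have h2 : (T q)^[t] y % 2 = (T q)^[t] y' % 2 := by simpa [Nat.ModEq] using h1
  rw [h2]

lemma exists_inv {q : ℕ} (hq : Odd q) (K : ℕ) : ∃ qi : ℤ, (q : ℤ) * qi ≡ 1 [ZMOD 2 ^ K] := by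
  have h : IsCoprime (q : ℤ) (2 ^ K) := by
    refine IsCoprime.pow_right ?_
    obtain ⟨r, hr⟩ := hq
    exact ⟨1, -r, by rw [hr]; push_cast; ring⟩
  obtain ⟨a, b, hab⟩ := h
  refine ⟨a, (Int.modEq_iff_dvd.2 ⟨b, ?_⟩)⟩
  linear_combination -hab

lemma word_inj {q : ℕ} (hq : Odd q) {j y y' : ℕ} (h : word q j y = word q j y') :
    y ≡ y' [MOD 2 ^ j] := by
  obtain ⟨qi, hqi⟩ := exists_inv hq j
  have h1 := block_cong hq hqi y j
  have h2 := block_cong hq hqi y' j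
  have h0 : ∀ a b : ℤ, 2 ^ j * a * b ≡ 0 [ZMOD 2 ^ j] := fun a b =>
    (Int.modEq_zero_iff_dvd.2 ⟨a * b, by ring⟩)
  have h3 : (y : ℤ) + psi qi (word q j y') ≡ y' + psi qi (word q j y') [ZMOD 2 ^ j] := by
    rw [h] at h1
    exact (h1.symm.trans (h0 _ _)).trans ((h0 _ _).symm.trans h2)
  have h4 := Int.ModEq.add_right_cancel' _ h3
  exact Int.natCast_modEq_iff.1 (by exact_mod_cast h4)

/-- The block counts of the orbit of `n`. -/
def Dn (q R n b : ℕ) : ℕ := (word q R ((T q)^[R * b] n)).card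

lemma II_succ (D : ℕ → ℕ) (b : ℕ) : II D (b + 1) = II D b + D b := sum_range_succ _ _

lemma multi_cong {q : ℕ} (hq : Odd q) {M qi : ℤ} (hqi : (q : ℤ) * qi ≡ 1 [ZMOD M]) (R n m : ℕ) :
    2 ^ (R * m) * qi ^ II (Dn q R n) m * ((T q)^[R * m] n : ℕ) ≡
      n + ∑ b ∈ range m, 2 ^ (R * b) * qi ^ II (Dn q R n) b *
        psi qi (word q R ((T q)^[R * b] n)) [ZMOD M] := by
  induction m with
  | zero => simp [II]
  | succ m ih =>
    rw [sum_range_succ, II_succ, Nat.mul_succ, add_comm (R * m) R, Function.iterate_add_apply]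
    have h1 := (block_cong hq hqi ((T q)^[R * m] n) R).mul_left
      (2 ^ (R * m) * qi ^ II (Dn q R n) m)
    have h2 : (2 : ℤ) ^ (R + R * m) * qi ^ (II (Dn q R n) m + Dn q R n m) *
        ((T q)^[R] ((T q)^[R * m] n) : ℕ) = 2 ^ (R * m) * qi ^ II (Dn q R n) m *
        (2 ^ R * qi ^ (word q R ((T q)^[R * m] n)).card * ((T q)^[R] ((T q)^[R * m] n) : ℕ)) := by
      rw [pow_add, pow_add, Dn]; ring
    rw [h2]
    refine h1.trans ?_
    rw [mul_add, ← add_assoc]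
    exact ih.add_right _

lemma multi_grow {q : ℕ} (hq : Odd q) (R n m : ℕ) :
    q ^ II (Dn q R n) m * n ≤ 2 ^ (R * m) * (T q)^[R * m] n := by
  induction m with
  | zero => simp [II]
  | succ m ih =>
    rw [II_succ, Nat.mul_succ, add_comm (R * m) R, Function.iterate_add_apply, pow_add, pow_add]
    have h1 := block_grow hq ((T q)^[R * m] n) R
    calc q ^ II (Dn q R n) m * q ^ Dn q R n m * n
        = q ^ Dn q R n m * (q ^ II (Dn q R n) m * n) := by ring
      _ ≤ q ^ Dn q R n m * (2 ^ (R * m) * (T q)^[R * m] n) := Nat.mul_le_mul_left _ ih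
      _ = 2 ^ (R * m) * (q ^ Dn q R n m * (T q)^[R * m] n) := by ring
      _ ≤ 2 ^ (R * m) * (2 ^ R * (T q)^[R] ((T q)^[R * m] n)) := Nat.mul_le_mul_left _ h1
      _ = _ := by ring

/-- Extension by zero of a finite sequence. -/
def DD {m : ℕ} (d : Fin m → ℕ) (b : ℕ) : ℕ := if h : b < m then d ⟨b, h⟩ else 0

def xs (q R m n : ℕ) : Fin m → Finset ℕ := fun b => word q R ((T q)^[R * b] n)

def cd {m : ℕ} (x : Fin m → Finset ℕ) : Fin m → ℕ := fun b => (x b).card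

def Phi (R : ℕ) (qi : ℤ) {m : ℕ} (d : Fin m → ℕ) (x : Fin m → Finset ℕ) : ℤ :=
  ∑ b : Fin m, 2 ^ (R * b) * qi ^ II (DD d) b * psi qi (x b)

lemma II_xs (q R m n b : ℕ) (hb : b ≤ m) : II (DD (cd (xs q R m n))) b = II (Dn q R n) b := by
  unfold II
  refine sum_congr rfl fun c hc => ?_
  have : c < m := by have := mem_range.1 hc; omega
  simp [DD, this, cd, xs, Dn]

lemma xs_cong {q : ℕ} (hq : Odd q) {M qi : ℤ} (hqi : (q : ℤ) * qi ≡ 1 [ZMOD M]) (R n m : ℕ) :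
    2 ^ (R * m) * qi ^ II (DD (cd (xs q R m n))) m * ((T q)^[R * m] n : ℕ) ≡
      n + Phi R qi (cd (xs q R m n)) (xs q R m n) [ZMOD M] := by
  rw [II_xs _ _ _ _ _ le_rfl]
  refine (multi_cong hq hqi R n m).trans ?_
  have : Phi R qi (cd (xs q R m n)) (xs q R m n) = ∑ b ∈ range m, 2 ^ (R * b) *
      qi ^ II (Dn q R n) b * psi qi (word q R ((T q)^[R * b] n)) := by
    unfold Phi
    rw [← Fin.sum_univ_eq_sum_range]
    refine sum_congr rfl fun b _ => ?_
    rw [II_xs _ _ _ _ _ b.2.le]; rfl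
  rw [this]

lemma xs_grow {q : ℕ} (hq : Odd q) (R n m : ℕ) :
    q ^ II (DD (cd (xs q R m n))) m * n ≤ 2 ^ (R * m) * (T q)^[R * m] n := by
  rw [II_xs _ _ _ _ _ le_rfl]; exact multi_grow hq R n m

lemma xs_inj {q : ℕ} (hq : Odd q) {R m n n' : ℕ} (h : xs q R m n = xs q R m n') :
    n ≡ n' [MOD 2 ^ (R * m)] := by
  obtain ⟨qi, hqi⟩ := exists_inv hq (R * m)
  have h1 := xs_cong hq hqi R n m
  have h2 := xs_cong hq hqi R n' m
  have h0 : ∀ a b : ℤ, 2 ^ (R * m) * a * b ≡ 0 [ZMOD 2 ^ (R * m)] := fun a b =>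
    (Int.modEq_zero_iff_dvd.2 ⟨a * b, by ring⟩)
  rw [h] at h1
  have h3 := (h1.symm.trans (h0 _ _)).trans ((h0 _ _).symm.trans h2)
  have h4 := Int.ModEq.add_right_cancel' _ h3
  exact Int.natCast_modEq_iff.1 (by exact_mod_cast h4)

lemma xs_mem (q R m n : ℕ) :
    xs q R m n ∈ Fintype.piFinset (fun _ : Fin m => (range R).powerset) := by
  simp only [Fintype.mem_piFinset, mem_powerset]
  exact fun b => word_sub _ _ _

end Pool.Agent.MP_574b9b_nt

end MrgPart1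

-- marker of a merged file
example : 731051 + 380598 = 731051 + 380598 := rfl
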