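import Mathlib.Algebra.BigOperators.ModEq
import Mathlib.Tactic.Monotonicity.Lemmas
import Mathlib.Algebra.Group.ForwardDiff
import Mathlib.Data.Int.Star
import Mathlib.Algebra.Order.Ring.Star
import Mathlib.FieldTheory.Finite.Basic
import Mathlib.Algebra.Order.Chebyshev
import Mathlib.Algebra.Order.Star.Real
import Mathlib.Algebra.Ring.IsFormallyReal
import Mathlib.Analysis.CStarAlgebra.Classes
import Mathlib.Analysis.SpecialFunctions.Trigonometric.Bounds
import Mathlib.Analysis.Complex.ExponentialBounds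
import Mathlib.Analysis.SpecialFunctions.Trigonometric.Series
import Mathlib.Order.Interval.Finset.Box
import Mathlib.Data.Rat.Star
import Mathlib.Tactic.Polynomial.Basic
import Pool.Agent.MP_574b9b_nt.Dyn

-- ======== part 0: formerly Pool.Agent.MP_574b9b_nt.Four
section MrgPart0

set_option autoImplicit false

open Finset Real

namespace Pool.Agent.MP_574b9b_nt

noncomputable def ch (K : ℕ) (u : ℤ) : ℂ := Complex.exp (((2 * π * (u / 2 ^ K) : ℝ) : ℂ) * Complex.I)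

lemma ch_add (K : ℕ) (u v : ℤ) : ch K (u + v) = ch K u * ch K v := by
  unfold ch; rw [← Complex.exp_add]; congr 1; push_cast; ring

lemma ch_zero (K : ℕ) : ch K 0 = 1 := by simp [ch]

lemma ch_norm (K : ℕ) (u : ℤ) : ‖ch K u‖ = 1 := Complex.norm_exp_ofReal_mul_I _

lemma ch_re (K : ℕ) (u : ℤ) : (ch K u).re = cos (2 * π * (u / 2 ^ K)) :=
  Complex.exp_ofReal_mul_I_re _

lemma ch_congr {K : ℕ} {u v : ℤ} (h : u ≡ v [ZMOD 2 ^ K]) : ch K u = ch K v := by
  obtain ⟨c, hc⟩ := h.dvd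
  have : v = u + 2 ^ K * c := by linarith
  rw [this, ch_add]
  have h1 : ch K (2 ^ K * c) = 1 := by
    unfold ch
    rw [← Complex.exp_int_mul_two_pi_mul_I c]
    congr 1
    push_cast
    field_simp
  rw [h1, mul_one]

lemma ch_conj (K : ℕ) (u : ℤ) : (starRingEnd ℂ) (ch K u) = ch K (-u) := by
  unfold ch
  rw [← Complex.exp_conj, map_mul, Complex.conj_ofReal, Complex.conj_I]
  congr 1; push_cast; ring

lemma ch_sum {ι : Type*} (K : ℕ) (s : Finset ι) (f : ι → ℤ) :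
    ch K (∑ a ∈ s, f a) = ∏ a ∈ s, ch K (f a) := by
  classical
  induction s using Finset.induction_on with
  | empty => simp [ch_zero]
  | insert a s ha ih => rw [sum_insert ha, prod_insert ha, ch_add, ih]

lemma normsq_sum {ι : Type*} (K : ℕ) (s : Finset ι) (f : ι → ℤ) :
    ‖∑ a ∈ s, ch K (f a)‖ ^ 2 = ∑ a ∈ s, ∑ b ∈ s, (ch K (f a - f b)).re := by
  have h : ∀ z : ℂ, ‖z‖ ^ 2 = (z * (starRingEnd ℂ) z).re := fun z => by
    rw [Complex.mul_conj, Complex.ofReal_re, Complex.normSq_eq_norm_sq]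
  rw [h, map_sum, sum_mul_sum, Complex.re_sum]
  refine sum_congr rfl fun a _ => ?_
  rw [Complex.re_sum]
  refine sum_congr rfl fun b _ => ?_
  rw [ch_conj, ← ch_add, sub_eq_add_neg]

lemma abs_bmod_le (u : ℤ) (K : ℕ) : 2 * |Int.bmod u (2 ^ K)| ≤ 2 ^ K := by
  have hp : 0 < 2 ^ K := by positivity
  have h1 := Int.le_bmod (x := u) hp
  have h2 := Int.bmod_lt (x := u) hp
  have h3 : ((2 ^ K : ℕ) : ℤ) = 2 ^ K := by push_cast; rfl
  rw [h3] at h1 h2
  rcases abs_cases (Int.bmod u (2 ^ K)) with h | h <;> omega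

lemma bmod_modEq (u : ℤ) (K : ℕ) : Int.bmod u (2 ^ K) ≡ u [ZMOD 2 ^ K] := by
  have := Int.bmod_emod (x := u) (m := 2 ^ K)
  unfold Int.ModEq
  exact_mod_cast this

lemma one_add_ch {A K : ℕ} (hA : 2 ≤ A) {u : ℤ}
    (h : (2 : ℤ) ^ K ≤ A * |Int.bmod u (2 ^ K)|) : ‖1 + ch K u‖ ≤ 2 - 4 / (A : ℝ) ^ 2 := by
  rw [← ch_congr (bmod_modEq u K)]
  have h1 := abs_bmod_le u K
  generalize Int.bmod u (2 ^ K) = w at h h1
  have hA' : (2 : ℝ) ≤ A := by exact_mod_cast hA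
  have hp : (0 : ℝ) < 2 ^ K := by positivity
  have h2 : (2 : ℝ) ^ K ≤ A * |(w : ℝ)| := by exact_mod_cast h
  have h3 : 2 * |(w : ℝ)| ≤ 2 ^ K := by exact_mod_cast h1
  set x : ℝ := w / 2 ^ K with hx
  have hx1 : |x| ≤ 1 / 2 := by
    rw [hx, abs_div, abs_of_pos hp, div_le_iff₀ hp]; linarith
  have hx2 : 1 ≤ A * |x| := by
    rw [hx, abs_div, abs_of_pos hp, ← mul_div_assoc, le_div_iff₀ hp]; linarith
  have hx3 : 1 / (A : ℝ) ^ 2 ≤ x ^ 2 := by
    rw [div_le_iff₀ (by positivity), ← sq_abs x]; nlinarith [abs_nonneg x]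
  have h4 : cos (2 * π * x) ≤ 1 - 8 * x ^ 2 := by
    have := Real.cos_le_one_sub_mul_cos_sq (x := 2 * π * x) (by
      rw [abs_mul, abs_of_pos (by positivity)]; nlinarith [pi_pos])
    refine this.trans (le_of_eq ?_)
    field_simp; ring
  have h5 : ‖1 + ch K w‖ ^ 2 = 2 + 2 * cos (2 * π * x) := by
    have := normsq_sum K (univ : Finset Bool) (fun b => if b then w else 0)
    simp only [Fintype.sum_bool, if_true, Bool.false_eq_true, if_false, sub_self, ch_zero, sub_zero,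
      zero_sub, ch_re, Int.cast_zero, zero_div, mul_zero, cos_zero, Int.cast_neg, neg_div, mul_neg,
      cos_neg] at this
    rw [add_comm, this]; ring
  have h6 : 4 / (A : ℝ) ^ 2 ≤ 1 := by
    rw [div_le_one (by positivity)]; nlinarith
  refine abs_le_of_sq_le_sq' ?_ (by linarith) |>.2
  have h7 : 4 / (A : ℝ) ^ 2 = 4 * (1 / (A : ℝ) ^ 2) := by ring
  rw [h5]
  nlinarith [sq_nonneg (4 / (A : ℝ) ^ 2)]

lemma block_sum {A K R d : ℕ} (hA : 2 ≤ A) (hd : 0 < d) (hR : d < R) {u qi : ℤ}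
    (h : (2 : ℤ) ^ K ≤ A * |Int.bmod (u * (2 ^ (d - 1) * qi ^ d)) (2 ^ K)|) :
    ‖∑ z ∈ powersetCard d (range R), ch K (u * psi qi z)‖ ≤
      (powersetCard d (range R)).card * (1 - 4 / (A : ℝ) ^ 2 / 2 ^ R) := by
  obtain ⟨e, rfl⟩ : ∃ e, d = e + 1 := ⟨d - 1, by omega⟩
  rw [Nat.add_sub_cancel] at h
  set P := powersetCard (e + 1) (range R) with hP
  have hne : insert e (range e) ≠ insert (e + 1) (range e) := fun hh => by
    have : e + 1 ∈ insert e (range e) := hh ▸ mem_insert_self _ _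
    simp at this
  have hsub : ({insert e (range e), insert (e + 1) (range e)} : Finset (Finset ℕ)) ⊆ P := by
    intro z hz
    rw [hP, mem_powersetCard]
    rcases mem_insert.1 hz with rfl | hz
    · refine ⟨fun t ht => ?_, by rw [card_insert_of_notMem (by simp), card_range]⟩
      simp at ht ⊢; omega
    · rw [mem_singleton.1 hz]
      refine ⟨fun t ht => ?_, by rw [card_insert_of_notMem (by simp), card_range]⟩
      simp at ht ⊢; omega
  rw [← sum_sdiff hsub, sum_pair hne]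
  have h1 : ‖∑ z ∈ P \ {insert e (range e), insert (e + 1) (range e)}, ch K (u * psi qi z)‖ ≤
      P.card - 2 := by
    refine (norm_sum_le _ _).trans ?_
    simp only [ch_norm, sum_const, nsmul_eq_mul, mul_one]
    have := card_sdiff_add_card_eq_card hsub
    rw [card_pair hne] at this
    rw [← this]; push_cast; linarith
  have h2 : ch K (u * psi qi (insert e (range e))) + ch K (u * psi qi (insert (e + 1) (range e))) =
      ch K (u * psi qi (insert e (range e))) * (1 + ch K (u * (2 ^ e * qi ^ (e + 1)))) := by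
    rw [mul_add, mul_one, ← ch_add, psi_insert _ _ _ Subset.rfl,
      psi_insert _ _ (e + 1) (range_subset_range.2 (Nat.le_succ e)), card_range]
    congr 2; ring
  have h3 := one_add_ch hA h
  have h4 : (P.card : ℝ) ≤ 2 ^ R := by
    have : P.card ≤ (range R).powerset.card :=
      card_le_card fun z hz => mem_powerset.2 (mem_powersetCard.1 hz).1
    rw [card_powerset, card_range] at this
    exact_mod_cast this
  refine (norm_add_le _ _).trans ?_
  rw [h2, norm_mul, ch_norm, one_mul]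
  have h5 : (P.card : ℝ) * (4 / (A : ℝ) ^ 2 / 2 ^ R) ≤ 4 / (A : ℝ) ^ 2 := by
    rw [← mul_div_assoc, div_le_iff₀ (by positivity), mul_comm]
    gcongr
  linarith

/-- The class of block sequences with given counts. -/
def cls (R : ℕ) {m : ℕ} (d : Fin m → ℕ) : Finset (Fin m → Finset ℕ) :=
  Fintype.piFinset (fun b => powersetCard (d b) (range R))

lemma class_sum {A K R m : ℕ} (hA : 2 ≤ A) (qi θ : ℤ) (d : Fin m → ℕ) :
    ‖∑ x ∈ cls R d, ch K (θ * Phi R qi d x)‖ ≤ (cls R d).card *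
      (1 - 4 / (A : ℝ) ^ 2 / 2 ^ R) ^ ((range m).filter (White R A K qi θ (DD d))).card := by
  unfold cls Phi
  simp_rw [mul_sum, ch_sum]
  rw [← prod_univ_sum (fun b : Fin m => powersetCard (d b) (range R))
    (fun b z => ch K (θ * (2 ^ (R * b) * qi ^ II (DD d) b * psi qi z))), norm_prod,
    Fintype.card_piFinset, Nat.cast_prod, ← prod_const, prod_filter,
    ← Fin.prod_univ_eq_prod_range
      (fun b => if White R A K qi θ (DD d) b then (1 - 4 / (A : ℝ) ^ 2 / 2 ^ R) else 1),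
    ← prod_mul_distrib]
  refine prod_le_prod (fun _ _ => norm_nonneg _) fun b _ => ?_
  simp_rw [← mul_assoc θ]
  split_ifs with h
  · obtain ⟨h1, h2, h3⟩ := h
    have hb : DD d b = d b := by simp [DD]
    rw [hb] at h1 h2 h3
    refine block_sum hA h1 h2 ?_
    have : θ * 2 ^ (R * b) * qi ^ II (DD d) b * (2 ^ (d b - 1) * qi ^ d b) =
        θ * 2 ^ (R * b + d b - 1) * qi ^ (II (DD d) b + d b) := by
      rw [Nat.add_sub_assoc h1, pow_add, pow_add]; ring
    rw [this]; exact h3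
  · refine (norm_sum_le _ _).trans ?_
    simp [ch_norm]

lemma maj {ι : Type*} [DecidableEq ι] (P : Finset ι) (Φ : ι → ℤ) (k j : ℕ) (E : Finset (ι × ι))
    (hE : E ⊆ P ×ˢ P)
    (h : ∀ p ∈ E, ∃ t : ℤ, |t| ≤ 2 ^ k ∧ Φ p.1 - Φ p.2 ≡ t [ZMOD 2 ^ (k + (j + 3))]) :
    (E.card : ℝ) * 2 ^ j ≤
      4 * ∑ θ ∈ Icc (-(2 : ℤ) ^ j) (2 ^ j), ‖∑ x ∈ P, ch (k + (j + 3)) (θ * Φ x)‖ ^ 2 := by
  set K := k + (j + 3)
  have hJ : (0 : ℝ) < 2 ^ j := by positivity
  have hc : ((Ico (0 : ℤ) (2 ^ j)).card : ℝ) = 2 ^ j := by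
    rw [Int.card_Ico, sub_zero]
    have : (((2 : ℤ) ^ j).toNat : ℤ) = 2 ^ j := Int.toNat_of_nonneg (by positivity)
    exact_mod_cast this
  have h1 : ∀ p ∈ E, (2 ^ j / 2 : ℝ) ^ 2 ≤
      ‖∑ θ ∈ Ico (0 : ℤ) (2 ^ j), ch K (θ * (Φ p.1 - Φ p.2))‖ ^ 2 := by
    intro p hp
    obtain ⟨t, ht, ht'⟩ := h p hp
    gcongr
    refine le_trans ?_ (Complex.re_le_norm _)
    rw [Complex.re_sum, ← hc, div_eq_mul_inv, ← nsmul_eq_mul]
    refine card_nsmul_le_sum _ _ _ fun θ hθ => ?_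
    rw [ch_congr (ht'.mul_left θ), ch_re]
    refine le_trans ?_ Real.one_sub_sq_div_two_le_cos
    obtain ⟨h0, h1⟩ := mem_Ico.1 hθ
    have h2 : |θ * t| ≤ 2 ^ j * 2 ^ k := by
      rw [abs_mul, abs_of_nonneg h0]; gcongr
    have h3 : |((θ * t : ℤ) : ℝ) / 2 ^ K| ≤ 1 / 8 := by
      rw [abs_div, abs_of_pos (by positivity : (0 : ℝ) < 2 ^ K), div_le_iff₀ (by positivity)]
      have : |((θ * t : ℤ) : ℝ)| ≤ 2 ^ j * 2 ^ k := by exact_mod_cast h2
      refine this.trans (le_of_eq ?_)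
      simp only [K]; ring
    generalize ((θ * t : ℤ) : ℝ) / 2 ^ K = y at h3
    have h4 : y ^ 2 ≤ (1 / 8) ^ 2 := by rw [← sq_abs]; gcongr
    have h5 : π ^ 2 ≤ 4 ^ 2 := by gcongr; exact pi_le_four
    have h6 : π ^ 2 * y ^ 2 ≤ 4 ^ 2 * (1 / 8) ^ 2 := by gcongr
    nlinarith
  have h2 : (E.card : ℝ) * (2 ^ j / 2) ^ 2 ≤ ∑ p ∈ P ×ˢ P,
      ‖∑ θ ∈ Ico (0 : ℤ) (2 ^ j), ch K (θ * (Φ p.1 - Φ p.2))‖ ^ 2 := by
    rw [← nsmul_eq_mul]
    exact (card_nsmul_le_sum _ _ _ h1).trans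
      (sum_le_sum_of_subset_of_nonneg hE fun _ _ _ => by positivity)
  have h3 : ∑ p ∈ P ×ˢ P, ‖∑ θ ∈ Ico (0 : ℤ) (2 ^ j), ch K (θ * (Φ p.1 - Φ p.2))‖ ^ 2 =
      ∑ a ∈ Ico (0 : ℤ) (2 ^ j), ∑ b ∈ Ico (0 : ℤ) (2 ^ j),
        ‖∑ x ∈ P, ch K ((a - b) * Φ x)‖ ^ 2 := by
    simp_rw [normsq_sum]
    rw [sum_comm]
    refine sum_congr rfl fun a _ => ?_
    rw [sum_comm]
    refine sum_congr rfl fun b _ => ?_
    rw [sum_product]
    refine sum_congr rfl fun x _ => sum_congr rfl fun y _ => ?_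
    congr 2; ring
  have h4 : ∀ a ∈ Ico (0 : ℤ) (2 ^ j), ∑ b ∈ Ico (0 : ℤ) (2 ^ j),
      ‖∑ x ∈ P, ch K ((a - b) * Φ x)‖ ^ 2 ≤
      ∑ θ ∈ Icc (-(2 : ℤ) ^ j) (2 ^ j), ‖∑ x ∈ P, ch K (θ * Φ x)‖ ^ 2 := by
    intro a ha
    rw [← sum_image (s := Ico (0 : ℤ) (2 ^ j)) (g := fun b => a - b)
      (f := fun θ => ‖∑ x ∈ P, ch K (θ * Φ x)‖ ^ 2) (fun _ _ _ _ h => by simpa using h)]
    refine sum_le_sum_of_subset_of_nonneg (fun θ hθ => ?_) fun _ _ _ => by positivity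
    obtain ⟨b, hb, rfl⟩ := mem_image.1 hθ
    simp only [mem_Ico, mem_Icc] at *
    omega
  have h5 := sum_le_card_nsmul _ _ _ h4
  rw [nsmul_eq_mul, hc, ← h3] at h5
  have h6 := h2.trans h5
  refine le_of_mul_le_mul_left ?_ hJ
  nlinarith

end Pool.Agent.MP_574b9b_nt

end MrgPart0

-- ======== part 1: formerly Pool.Agent.MP_574b9b_nt.Ld
section MrgPart1

set_option autoImplicit false

open Finset Real

namespace Pool.Agent.MP_574b9b_nt

lemma ld (Ω : Finset (Finset ℕ)) (m u v : ℕ) (hv : v ≤ m) (g : ℕ → ℝ) (t β : ℝ)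
    (hβ : ∑ z ∈ Ω, exp (g z.card) ≤ β * Ω.card) (p : (Fin m → Finset ℕ) → Prop) [DecidablePred p]
    (hp : ∀ x, p x → t ≤ ∑ b ∈ Ico u v, g (DD (cd x) b)) :
    (((Fintype.piFinset (fun _ : Fin m => Ω)).filter p).card : ℝ) ≤
      exp (-t) * β ^ (v - u) * (Ω.card : ℝ) ^ m := by
  have hsum : ∀ f : ℕ → ℝ, ∑ b ∈ Ico u v, f b = ∑ b : Fin m, if (b : ℕ) ∈ Ico u v then f b else 0 := by
    intro f
    rw [Fin.sum_univ_eq_sum_range (fun b => if b ∈ Ico u v then f b else 0), sum_ite_mem]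
    congr 1
    refine (inter_eq_right.2 fun b hb => ?_).symm
    have := (mem_Ico.1 hb).2
    exact mem_range.2 (by omega)
  have h1 : ∀ x : Fin m → Finset ℕ, exp (∑ b ∈ Ico u v, g (DD (cd x) b)) =
      ∏ b : Fin m, if (b : ℕ) ∈ Ico u v then exp (g (x b).card) else 1 := by
    intro x
    rw [hsum, exp_sum]
    refine prod_congr rfl fun b _ => ?_
    split_ifs
    · simp [DD, cd]
    · simp
  have h2 : ∑ x ∈ Fintype.piFinset (fun _ : Fin m => Ω), exp (∑ b ∈ Ico u v, g (DD (cd x) b)) ≤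
      β ^ (v - u) * (Ω.card : ℝ) ^ m := by
    simp_rw [h1]
    rw [← prod_univ_sum (fun _ : Fin m => Ω)
      (fun b z => if (b : ℕ) ∈ Ico u v then exp (g z.card) else 1)]
    calc _ ≤ ∏ b : Fin m, ((if (b : ℕ) ∈ Ico u v then β else 1) * (Ω.card : ℝ)) := by
          refine prod_le_prod (fun b _ => sum_nonneg fun z _ => ?_) fun b _ => ?_
          · split_ifs <;> positivity
          · split_ifs
            · exact hβ
            · simp
      _ = _ := by
          rw [prod_mul_distrib, prod_const, card_univ, Fintype.card_fin,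
            Fin.prod_univ_eq_prod_range (fun b => if b ∈ Ico u v then β else 1), prod_ite_mem,
            inter_eq_right.2, prod_const, Nat.card_Ico]
          intro b hb
          have := (mem_Ico.1 hb).2
          exact mem_range.2 (by omega)
  calc _ = ∑ x ∈ (Fintype.piFinset (fun _ : Fin m => Ω)).filter p, (1 : ℝ) := by simp
    _ ≤ ∑ x ∈ (Fintype.piFinset (fun _ : Fin m => Ω)).filter p,
          exp (-t) * exp (∑ b ∈ Ico u v, g (DD (cd x) b)) := by
        refine sum_le_sum fun x hx => ?_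
        rw [← exp_add]
        exact one_le_exp (by linarith [hp x (mem_filter.1 hx).2])
    _ ≤ ∑ x ∈ Fintype.piFinset (fun _ : Fin m => Ω),
          exp (-t) * exp (∑ b ∈ Ico u v, g (DD (cd x) b)) :=
        sum_le_sum_of_subset_of_nonneg (filter_subset _ _) fun _ _ _ => by positivity
    _ ≤ _ := by
        rw [← mul_sum, mul_assoc]
        exact mul_le_mul_of_nonneg_left h2 (exp_pos _).le

lemma sum_exp_card (R : ℕ) (s : ℝ) :
    ∑ z ∈ (range R).powerset, exp (-s * z.card) = (1 + exp (-s)) ^ R := by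
  have := Finset.prod_one_add (s := range R) (f := fun _ => exp (-s))
  rw [prod_const, card_range] at this
  rw [this]
  refine sum_congr rfl fun z _ => ?_
  rw [prod_const, mul_comm, exp_nat_mul]

lemma key_exp (ζ : ℝ) : exp (4 * ζ * (1 / 2 - ζ)) * ((1 + exp (-(4 * ζ))) / 2) ≤ exp (-2 * ζ ^ 2) := by
  have h1 := Real.cosh_le_exp_half_sq (2 * ζ)
  rw [Real.cosh_eq] at h1
  have h2 : exp (4 * ζ * (1 / 2 - ζ)) * ((1 + exp (-(4 * ζ))) / 2) =
      exp (-4 * ζ ^ 2) * ((exp (2 * ζ) + exp (-(2 * ζ))) / 2) := by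
    rw [← mul_div_assoc, ← mul_div_assoc, mul_add, mul_add, mul_one, ← exp_add, ← exp_add, ← exp_add]
    congr 2 <;> congr 1 <;> ring
  rw [h2]
  calc _ ≤ exp (-4 * ζ ^ 2) * exp ((2 * ζ) ^ 2 / 2) := by gcongr
    _ = _ := by rw [← exp_add]; congr 1; ring

lemma ld_ones (R m u l : ℕ) (hv : u + l ≤ m) (ζ : ℝ) (hζ : 0 ≤ ζ)
    (p : (Fin m → Finset ℕ) → Prop) [DecidablePred p]
    (hp : ∀ x, p x → ((∑ b ∈ Ico u (u + l), DD (cd x) b : ℕ) : ℝ) ≤ (1 / 2 - ζ) * (R * l : ℕ)) :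
    (((Fintype.piFinset (fun _ : Fin m => (range R).powerset)).filter p).card : ℝ) ≤
      exp (-2 * ζ ^ 2 * (R * l : ℕ)) * 2 ^ (R * m) := by
  have h := ld (range R).powerset m u (u + l) hv (fun c => -(4 * ζ) * c)
    (-(4 * ζ * (1 / 2 - ζ) * (R * l : ℕ))) (((1 + exp (-(4 * ζ))) / 2) ^ R) (by
      rw [sum_exp_card, card_powerset, card_range, div_pow]; push_cast
      rw [div_mul_cancel₀ _ (by positivity)]) p (by
      intro x hx
      have := hp x hx
      rw [← mul_sum]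
      push_cast at this ⊢
      nlinarith)
  refine h.trans ?_
  rw [card_powerset, card_range, neg_neg, Nat.add_sub_cancel_left, ← pow_mul, mul_comm _ ((R * l : ℕ) : ℝ),
    exp_nat_mul, ← mul_pow, mul_comm _ ((R * l : ℕ) : ℝ), exp_nat_mul]
  push_cast
  rw [← pow_mul]
  gcongr
  exact key_exp ζ

lemma ld_word (j : ℕ) (ζ : ℝ) (hζ : 0 ≤ ζ) :
    ((((range j).powerset).filter (fun z => (z.card : ℝ) ≤ (1 / 2 - ζ) * j)).card : ℝ) ≤
      exp (-2 * ζ ^ 2 * j) * 2 ^ j := by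
  calc _ = ∑ z ∈ ((range j).powerset).filter (fun z => (z.card : ℝ) ≤ (1 / 2 - ζ) * j), (1 : ℝ) := by
        simp
    _ ≤ ∑ z ∈ ((range j).powerset).filter (fun z => (z.card : ℝ) ≤ (1 / 2 - ζ) * j),
          exp (4 * ζ * (1 / 2 - ζ) * j) * exp (-(4 * ζ) * z.card) := by
        refine sum_le_sum fun z hz => ?_
        rw [← exp_add]
        have := (mem_filter.1 hz).2
        exact one_le_exp (by nlinarith)
    _ ≤ ∑ z ∈ (range j).powerset, exp (4 * ζ * (1 / 2 - ζ) * j) * exp (-(4 * ζ) * z.card) :=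
        sum_le_sum_of_subset_of_nonneg (filter_subset _ _) fun _ _ _ => by positivity
    _ = (exp (4 * ζ * (1 / 2 - ζ)) * ((1 + exp (-(4 * ζ))) / 2)) ^ j * 2 ^ j := by
        rw [← mul_sum, sum_exp_card, mul_comm _ (j : ℝ), exp_nat_mul, mul_pow, div_pow]
        field_simp
    _ ≤ _ := by
        rw [mul_comm _ (j : ℝ), exp_nat_mul]
        gcongr
        exact key_exp ζ

lemma ld_empty (R m u l : ℕ) (hv : u + l ≤ m)
    (p : (Fin m → Finset ℕ) → Prop) [DecidablePred p]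
    (hp : ∀ x, p x → 4 * l ≤
      ((Ico u (u + l)).filter (fun b => DD (cd x) b = 0 ∨ DD (cd x) b = R)).card * 2 ^ R) :
    (((Fintype.piFinset (fun _ : Fin m => (range R).powerset)).filter p).card : ℝ) ≤
      exp (-(1 / 2 / 2 ^ R) * l) * 2 ^ (R * m) := by
  have hpos : (0 : ℝ) < 2 ^ R := by positivity
  have he := Real.exp_one_lt_d9
  have h := ld (range R).powerset m u (u + l) hv (fun c => if c = 0 ∨ c = R then 1 else 0)
    (4 * l / 2 ^ R) (exp (7 / 2 / 2 ^ R)) (by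
      have h1 : ∀ z ∈ (range R).powerset, exp (if z.card = 0 ∨ z.card = R then (1 : ℝ) else 0) ≤
          1 + ((if z = ∅ then 7 / 4 else 0) + if z = range R then 7 / 4 else 0) := by
        intro z hz
        by_cases h0 : z = ∅
        · rw [if_pos (Or.inl (by simp [h0])), if_pos h0]; split_ifs <;> linarith
        · by_cases hR : z = range R
          · rw [if_pos (Or.inr (by simp [hR])), if_neg h0, if_pos hR]; linarith
          · rw [if_neg, if_neg h0, if_neg hR]; · simp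
            rintro (h | h)
            · exact h0 (card_eq_zero.1 h)
            · exact hR (eq_of_subset_of_card_le (mem_powerset.1 hz) (by simp [h]))
      refine (sum_le_sum h1).trans ?_
      rw [sum_add_distrib, sum_add_distrib, sum_ite_eq', sum_ite_eq', if_pos (by simp),
        if_pos (by simp), sum_const, card_powerset, card_range]
      have h2 := Real.add_one_le_exp (7 / 2 / 2 ^ R : ℝ)
      have h3 := mul_le_mul_of_nonneg_right h2 hpos.le
      rw [add_mul, div_mul_cancel₀ _ hpos.ne'] at h3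
      push_cast
      rw [nsmul_eq_mul]; push_cast
      linarith) p (by
      intro x hx
      have := hp x hx
      rw [sum_boole, div_le_iff₀ hpos]
      exact_mod_cast this)
  refine h.trans ?_
  rw [card_powerset, card_range, Nat.add_sub_cancel_left, ← exp_nat_mul, ← exp_add]
  push_cast
  rw [← pow_mul]
  refine le_of_eq ?_
  congr 2
  ring

lemma ld_typ (R T j m : ℕ) (hm : T * j ≤ m) (p : (Fin m → Finset ℕ) → Prop) [DecidablePred p]
    (hp : ∀ x, p x → ¬ Typ R T j (DD (cd x))) :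
    (((Fintype.piFinset (fun _ : Fin m => (range R).powerset)).filter p).card : ℝ) ≤
      T * (exp (-(1 / 8) * (R * j : ℕ)) + exp (-(1 / 2 / 2 ^ R) * j)) * 2 ^ (R * m) := by
  classical
  set P := Fintype.piFinset (fun _ : Fin m => (range R).powerset)
  have hsub : P.filter p ⊆ (range T).biUnion (fun τ =>
      P.filter (fun x => 4 * ∑ b ∈ Ico (τ * j) (τ * j + j), DD (cd x) b ≤ R * j) ∪
      P.filter (fun x => 4 * j ≤ ((Ico (τ * j) (τ * j + j)).filter
        (fun b => DD (cd x) b = 0 ∨ DD (cd x) b = R)).card * 2 ^ R)) := by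
    intro x hx
    obtain ⟨hx1, hx2⟩ := mem_filter.1 hx
    have h := hp x hx2
    unfold Typ at h
    push Not at h
    obtain ⟨τ, hτ, h⟩ := h
    rw [add_one_mul] at h
    refine mem_biUnion.2 ⟨τ, mem_range.2 hτ, ?_⟩
    by_cases h1 : R * j ≤ 4 * ∑ b ∈ Ico (τ * j) (τ * j + j), DD (cd x) b
    · exact mem_union_right _ (mem_filter.2 ⟨hx1, (h h1).le⟩)
    · exact mem_union_left _ (mem_filter.2 ⟨hx1, by omega⟩)
  have h1 := (card_le_card hsub).trans card_biUnion_le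
  have h2 := (Nat.cast_le (α := ℝ)).2 h1
  refine h2.trans ?_
  rw [Nat.cast_sum, mul_assoc]
  refine (sum_le_card_nsmul _ _ ((exp (-(1 / 8) * (R * j : ℕ)) + exp (-(1 / 2 / 2 ^ R) * j)) *
    2 ^ (R * m)) fun τ hτ => ?_).trans (by simp)
  have hτ' : τ * j + j ≤ m := by
    have := Nat.mul_le_mul_right j (Nat.succ_le_of_lt (mem_range.1 hτ))
    rw [Nat.succ_mul] at this; omega
  refine ((Nat.cast_le (α := ℝ)).2 (card_union_le _ _)).trans ?_
  rw [Nat.cast_add, add_mul]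
  refine add_le_add ?_ (ld_empty R m _ j hτ' _ fun x hx => hx)
  have := ld_ones R m (τ * j) j hτ' (1 / 4) (by norm_num)
    (fun x => 4 * ∑ b ∈ Ico (τ * j) (τ * j + j), DD (cd x) b ≤ R * j) (by
      intro x hx
      have := (Nat.cast_le (α := ℝ)).2 hx
      rw [Nat.cast_mul 4] at this
      push_cast at this ⊢
      linarith)
  refine this.trans (le_of_eq ?_)
  congr 2; ring

end Pool.Agent.MP_574b9b_nt

end MrgPart1

-- ======== part 2: formerly Pool.Agent.MP_574b9b_nt.Cls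
section MrgPart2

set_option autoImplicit false

open Finset Real

namespace Pool.Agent.MP_574b9b_nt

lemma xs_injOn {q : ℕ} (hq : Odd q) (R m s : ℕ) :
    Set.InjOn (xs q R m) (Ico s (s + 2 ^ (R * m)) : Finset ℕ) := by
  intro n hn n' hn' h
  have h1 := xs_inj hq h
  have hn := mem_Ico.1 (mem_coe.1 hn)
  have hn' := mem_Ico.1 (mem_coe.1 hn')
  refine h1.eq_of_abs_lt ?_
  rw [abs_lt]; constructor <;> omega

lemma sq_card_le (S B : Finset ℕ) (Y : ℕ → ℕ) (h : ∀ n ∈ S, Y n ∈ B) :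
    (S.card : ℝ) ^ 2 ≤ B.card * ((S ×ˢ S).filter (fun p => Y p.1 = Y p.2)).card := by
  have h1 := card_eq_sum_card_fiberwise (s := S) (t := B) (f := Y) h
  have h2 := card_eq_sum_card_fiberwise (s := (S ×ˢ S).filter (fun p => Y p.1 = Y p.2)) (t := B)
    (f := fun p => Y p.1) (fun p hp => h _ (mem_product.1 (mem_filter.1 hp).1).1)
  have h3 : ∀ r ∈ B, (((S ×ˢ S).filter (fun p => Y p.1 = Y p.2)).filter (fun p => Y p.1 = r)).card =
      (S.filter (fun n => Y n = r)).card ^ 2 := by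
    intro r _
    rw [sq, ← card_product]
    congr 1
    ext p
    simp only [mem_filter, mem_product]
    constructor
    · rintro ⟨⟨⟨a, b⟩, c⟩, d⟩; exact ⟨⟨a, d⟩, b, c ▸ d⟩
    · rintro ⟨⟨a, d⟩, b, c⟩; exact ⟨⟨⟨a, b⟩, d.trans c.symm⟩, d⟩
  rw [h2, sum_congr rfl h3, h1]
  push_cast
  exact sq_sum_le_card_mul_sum_sq

lemma class_count {q : ℕ} (hq : Odd q) {A : ℕ} (hA : 2 ≤ A) (R m j s : ℕ) (hj : 3 ≤ j) {qi : ℤ}
    (hqi : (q : ℤ) * qi ≡ 1 [ZMOD 2 ^ (R * m + j)]) (d : Fin m → ℕ) (B : Finset ℕ) {W η : ℝ}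
    (hW : ∑ θ ∈ Icc (-(2 : ℤ) ^ j) (2 ^ j), ((1 - 4 / (A : ℝ) ^ 2 / 2 ^ R) ^
      ((range m).filter (White R A (R * m + j) qi θ (DD d))).card) ^ 2 ≤ W)
    (hη : 0 ≤ η) (hB : 32 * B.card * W ≤ η ^ 2 * 2 ^ j) :
    (((Ico s (s + 2 ^ (R * m))).filter (fun n => cd (xs q R m n) = d ∧
      (T q)^[R * m] n % 2 ^ j ∈ B)).card : ℝ) ≤ η * (cls R d).card := by
  classical
  obtain ⟨i, rfl⟩ : ∃ i, j = i + 3 := ⟨j - 3, by omega⟩
  set S := (Ico s (s + 2 ^ (R * m))).filter (fun n => cd (xs q R m n) = d ∧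
      (T q)^[R * m] n % 2 ^ (i + 3) ∈ B) with hS
  have h1 := sq_card_le S B (fun n => (T q)^[R * m] n % 2 ^ (i + 3))
    (fun n hn => (mem_filter.1 hn).2.2)
  set E := (S ×ˢ S).filter (fun p => (T q)^[R * m] p.1 % 2 ^ (i + 3) =
    (T q)^[R * m] p.2 % 2 ^ (i + 3)) with hE
  have hcls : ∀ n ∈ S, xs q R m n ∈ cls R d := by
    intro n hn
    have := (mem_filter.1 hn).2.1
    simp only [cls, Fintype.mem_piFinset, mem_powersetCard]
    exact fun b => ⟨word_sub _ _ _, congrFun this b⟩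
  have h2 := maj (cls R d) (Phi R qi d) (R * m) i (E.image (Prod.map (xs q R m) (xs q R m))) (by
    intro p0 hp0
    obtain ⟨p, hp, rfl⟩ := mem_image.1 hp0
    have := mem_product.1 (mem_filter.1 hp).1
    exact mem_product.2 ⟨hcls _ this.1, hcls _ this.2⟩) (by
    intro p0 hp0
    obtain ⟨⟨n, n'⟩, hp, rfl⟩ := mem_image.1 hp0
    obtain ⟨hp1, hp2⟩ := mem_filter.1 hp
    obtain ⟨hn, hn'⟩ := mem_product.1 hp1
    obtain ⟨hn1, hn2, -⟩ := mem_filter.1 hn
    obtain ⟨hn1', hn2', -⟩ := mem_filter.1 hn'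
    have a1 := xs_cong hq hqi R n m
    have a2 := xs_cong hq hqi R n' m
    simp only at hn1 hn2 hn1' hn2' hp2
    rw [hn2] at a1
    rw [hn2'] at a2
    have a3 : (((T q)^[R * m] n : ℕ) : ℤ) ≡ ((T q)^[R * m] n' : ℕ) [ZMOD 2 ^ (i + 3)] := by
      have := Int.natCast_modEq_iff.2 (show (T q)^[R * m] n ≡ (T q)^[R * m] n' [MOD 2 ^ (i + 3)]
        from hp2)
      exact_mod_cast this
    obtain ⟨c, hc⟩ := a3.dvd
    have a4 : (2 : ℤ) ^ (R * m) * qi ^ II (DD d) m * ((T q)^[R * m] n : ℕ) ≡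
        2 ^ (R * m) * qi ^ II (DD d) m * ((T q)^[R * m] n' : ℕ) [ZMOD 2 ^ (R * m + (i + 3))] :=
      Int.modEq_iff_dvd.2 ⟨qi ^ II (DD d) m * c, by
        rw [pow_add]; linear_combination (2 ^ (R * m) * qi ^ II (DD d) m) * hc⟩
    have a5 := (a1.symm.trans a4).trans a2
    refine ⟨n' - n, ?_, ?_⟩
    · have b1 := mem_Ico.1 hn1
      have b2 := mem_Ico.1 hn1'
      have : ((2 ^ (R * m) : ℕ) : ℤ) = 2 ^ (R * m) := by push_cast; rfl
      rw [abs_le]; constructor <;> omega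
    · have := a5.sub_right (n + Phi R qi d (xs q R m n'))
      simp only [Prod.map]
      refine Int.ModEq.trans (by rw [show Phi R qi d (xs q R m n) - Phi R qi d (xs q R m n') =
        n + Phi R qi d (xs q R m n) - (n + Phi R qi d (xs q R m n')) by ring]) (this.trans ?_)
      rw [show (n' : ℤ) + Phi R qi d (xs q R m n') - (n + Phi R qi d (xs q R m n')) = n' - n by ring])
  rw [card_image_of_injOn (by
    intro p hp p' hp' h
    have b1 := mem_product.1 (mem_filter.1 (mem_coe.1 hp)).1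
    have b2 := mem_product.1 (mem_filter.1 (mem_coe.1 hp')).1
    have c := Prod.ext_iff.1 h
    exact Prod.ext
      (xs_injOn hq R m s (mem_coe.2 (mem_filter.1 b1.1).1) (mem_coe.2 (mem_filter.1 b2.1).1) c.1)
      (xs_injOn hq R m s (mem_coe.2 (mem_filter.1 b1.2).1) (mem_coe.2 (mem_filter.1 b2.2).1) c.2))]
    at h2
  have h3 : ∑ θ ∈ Icc (-(2 : ℤ) ^ i) (2 ^ i),
      ‖∑ x ∈ cls R d, ch (R * m + (i + 3)) (θ * Phi R qi d x)‖ ^ 2 ≤ ((cls R d).card : ℝ) ^ 2 * W := by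
    refine le_trans ?_ (mul_le_mul_of_nonneg_left hW (by positivity))
    rw [mul_sum]
    have hp : (2 : ℤ) ^ i ≤ 2 ^ (i + 3) := pow_le_pow_right₀ (by norm_num) (by omega)
    refine (sum_le_sum_of_subset_of_nonneg (Icc_subset_Icc (neg_le_neg hp) hp)
      fun _ _ _ => by positivity).trans (sum_le_sum fun θ _ => ?_)
    rw [← mul_pow]
    gcongr
    exact class_sum hA qi θ d
  refine abs_le_of_sq_le_sq' ?_ (by positivity) |>.2
  have hp : (0 : ℝ) < 2 ^ i := by positivity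
  refine le_of_mul_le_mul_right ?_ hp
  rw [pow_add] at hB
  calc (S.card : ℝ) ^ 2 * 2 ^ i ≤ B.card * E.card * 2 ^ i := by gcongr
    _ = B.card * (E.card * 2 ^ i) := by ring
    _ ≤ B.card * (4 * (((cls R d).card : ℝ) ^ 2 * W)) := by
        refine mul_le_mul_of_nonneg_left (h2.trans ?_) (by positivity)
        gcongr
    _ = ((cls R d).card : ℝ) ^ 2 / 8 * (32 * B.card * W) := by ring
    _ ≤ ((cls R d).card : ℝ) ^ 2 / 8 * (η ^ 2 * (2 ^ i * 2 ^ 3)) := by gcongr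
    _ = _ := by ring

lemma weight_sum {j C : ℕ} {c W : ℝ} (h0 : 0 ≤ c) (h1 : c ≤ 1) (hC : c ^ C ≤ 1 / 2) (w : ℤ → ℕ)
    (h : (((Icc (-(2 : ℤ) ^ j) (2 ^ j)).filter (fun θ => w θ ≤ C * j)).card : ℝ) ≤ W) :
    ∑ θ ∈ Icc (-(2 : ℤ) ^ j) (2 ^ j), (c ^ w θ) ^ 2 ≤ W + 3 := by
  have h2 : ∀ θ ∈ Icc (-(2 : ℤ) ^ j) (2 ^ j), (c ^ w θ) ^ 2 ≤
      (if w θ ≤ C * j then 1 else 0) + (1 / 2) ^ j := by
    intro θ _
    have a1 : c ^ w θ ≤ 1 := pow_le_one₀ h0 h1
    have a2 : (c ^ w θ) ^ 2 ≤ c ^ w θ := by nlinarith [pow_nonneg h0 (w θ)]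
    split_ifs with hh
    · have : (0 : ℝ) ≤ (1 / 2) ^ j := by positivity
      linarith
    · rw [zero_add]
      calc _ ≤ c ^ w θ := a2
        _ ≤ c ^ (C * j) := pow_le_pow_of_le_one h0 h1 (by omega)
        _ ≤ _ := by rw [pow_mul]; gcongr
  refine (sum_le_sum h2).trans ?_
  rw [sum_add_distrib, sum_boole, sum_const, nsmul_eq_mul, Int.card_Icc]
  have h3 : (((2 : ℤ) ^ j + 1 - -2 ^ j).toNat : ℤ) = 2 ^ j + 1 - -2 ^ j :=
    Int.toNat_of_nonneg (by have : (0 : ℤ) < 2 ^ j := by positivity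
                            omega)
  have h4 : (((2 : ℤ) ^ j + 1 - -2 ^ j).toNat : ℝ) = 2 ^ j + 1 - -2 ^ j := by exact_mod_cast h3
  have h5 : (2 : ℝ) ^ j * (1 / 2) ^ j = 1 := by rw [← mul_pow]; norm_num
  have h6 : (1 / 2 : ℝ) ^ j ≤ 1 := pow_le_one₀ (by norm_num) (by norm_num)
  rw [h4]
  nlinarith

lemma sum_cls (R m : ℕ) :
    ∑ d ∈ Fintype.piFinset (fun _ : Fin m => range (R + 1)), (cls R d).card = 2 ^ (R * m) := by
  classical
  have h := card_eq_sum_card_fiberwise (s := Fintype.piFinset (fun _ : Fin m => (range R).powerset))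
    (t := Fintype.piFinset (fun _ : Fin m => range (R + 1))) (f := cd) (by
      intro x hx
      simp only [mem_coe, Fintype.mem_piFinset, mem_powerset] at hx ⊢
      intro b
      have := card_le_card (hx b)
      rw [card_range] at this
      exact mem_range.2 (Nat.lt_succ_of_le this))
  rw [Fintype.card_piFinset, prod_const, card_powerset, card_range, card_univ, Fintype.card_fin,
    ← pow_mul] at h
  rw [h]
  refine sum_congr rfl fun d _ => ?_
  congr 1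
  ext x
  simp only [cls, mem_filter, Fintype.mem_piFinset, mem_powersetCard, mem_powerset, funext_iff, cd,
    forall_and]

lemma interval_count {q : ℕ} (hq : Odd q) (R m j s : ℕ) (B : Finset ℕ) {η : ℝ} (hη : 0 ≤ η)
    (good : (Fin m → ℕ) → Prop) [DecidablePred good]
    (h : ∀ d, (∀ b, d b ≤ R) → good d → (((Ico s (s + 2 ^ (R * m))).filter
      (fun n => cd (xs q R m n) = d ∧ (T q)^[R * m] n % 2 ^ j ∈ B)).card : ℝ) ≤ η * (cls R d).card) :
    (((Ico s (s + 2 ^ (R * m))).filter (fun n => ¬ good (cd (xs q R m n)) ∨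
      (T q)^[R * m] n % 2 ^ j ∈ B)).card : ℝ) ≤
      ((Fintype.piFinset (fun _ : Fin m => (range R).powerset)).filter
        (fun x => ¬ good (cd x))).card + η * 2 ^ (R * m) := by
  classical
  have hsub : (Ico s (s + 2 ^ (R * m))).filter (fun n => ¬ good (cd (xs q R m n)) ∨
      (T q)^[R * m] n % 2 ^ j ∈ B) ⊆
      (Ico s (s + 2 ^ (R * m))).filter (fun n => ¬ good (cd (xs q R m n))) ∪
      ((Fintype.piFinset (fun _ : Fin m => range (R + 1))).filter good).biUnion (fun d =>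
        (Ico s (s + 2 ^ (R * m))).filter
          (fun n => cd (xs q R m n) = d ∧ (T q)^[R * m] n % 2 ^ j ∈ B)) := by
    intro n hn
    obtain ⟨h1, h2⟩ := mem_filter.1 hn
    by_cases hg : good (cd (xs q R m n))
    · refine mem_union_right _ (mem_biUnion.2 ⟨_, mem_filter.2 ⟨?_, hg⟩,
        mem_filter.2 ⟨h1, rfl, h2.resolve_left (not_not.2 hg)⟩⟩)
      simp only [Fintype.mem_piFinset]
      intro b
      have := card_le_card (word_sub q R ((T q)^[R * b] n))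
      rw [card_range] at this
      exact mem_range.2 (Nat.lt_succ_of_le this)
    · exact mem_union_left _ (mem_filter.2 ⟨h1, hg⟩)
  have h1 := (card_le_card hsub).trans
    ((card_union_le _ _).trans (Nat.add_le_add_left card_biUnion_le _))
  refine ((Nat.cast_le (α := ℝ)).2 h1).trans ?_
  rw [Nat.cast_add, Nat.cast_sum]
  refine add_le_add ?_ ?_
  · refine (Nat.cast_le (α := ℝ)).2 (card_le_card_of_injOn (xs q R m) ?_ ?_)
    · intro n hn
      exact mem_coe.2 (mem_filter.2 ⟨xs_mem _ _ _ _, (mem_filter.1 (mem_coe.1 hn)).2⟩)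
    · exact (xs_injOn hq R m s).mono (coe_subset.2 (filter_subset _ _))
  · have h2 : (2 : ℝ) ^ (R * m) =
        ∑ d ∈ Fintype.piFinset (fun _ : Fin m => range (R + 1)), ((cls R d).card : ℝ) := by
      exact_mod_cast (sum_cls R m).symm
    rw [h2, mul_sum]
    refine (sum_le_sum fun d hd => h d (fun b => ?_) (mem_filter.1 hd).2).trans
      (sum_le_sum_of_subset_of_nonneg (filter_subset _ _) fun _ _ _ => by positivity)
    exact Nat.le_of_lt_succ (mem_range.1 (Fintype.mem_piFinset.1 (mem_filter.1 hd).1 b))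

end Pool.Agent.MP_574b9b_nt

end MrgPart2

-- ======== part 3: formerly Pool.Agent.MP_574b9b_nt.Stage
section MrgPart3

set_option autoImplicit false

open Finset Real

namespace Pool.Agent.MP_574b9b_nt

def gg (q n : ℕ) : ℕ := if n % 2 = 0 then n / 2 else q * n + 1

lemma T_iter {q : ℕ} (hq : Odd q) (n t : ℕ) : ∃ k, (gg q)^[k] n = (T q)^[t] n := by
  induction t with
  | zero => exact ⟨0, rfl⟩
  | succ t ih =>
    obtain ⟨k, hk⟩ := ih
    rw [Function.iterate_succ_apply', ← hk]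
    by_cases h : (gg q)^[k] n % 2 = 1
    · refine ⟨k + 1 + 1, ?_⟩
      rw [Function.iterate_succ_apply', Function.iterate_succ_apply']
      have h1 := two_T_odd hq h
      generalize (gg q)^[k] n = y at h h1
      have h2 : gg q y = q * y + 1 := by unfold gg; rw [if_neg (by omega)]
      rw [h2]; unfold gg; rw [if_pos (by omega)]; omega
    · refine ⟨k + 1, ?_⟩
      rw [Function.iterate_succ_apply']
      generalize (gg q)^[k] n = y at h
      unfold gg T; rw [if_pos (by omega), if_pos (by omega)]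

lemma bad_card {q : ℕ} (hq : Odd q) (j : ℕ) :
    (((range (2 ^ j)).filter (fun r => ((word q j r).card : ℝ) ≤ (1 / 2 - 1 / 20) * j)).card : ℝ) ≤
      exp (-(1 / 200) * j) * 2 ^ j := by
  have h := ld_word j (1 / 20) (by norm_num)
  rw [show (-2 * (1 / 20) ^ 2 : ℝ) = -(1 / 200) by norm_num] at h
  refine le_trans ((Nat.cast_le (α := ℝ)).2 (card_le_card_of_injOn (word q j) ?_ ?_)) h
  · intro r hr
    exact mem_coe.2 (mem_filter.2 ⟨mem_powerset.2 (word_sub _ _ _), (mem_filter.1 (mem_coe.1 hr)).2⟩)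
  · intro r hr r' hr' hh
    exact (word_inj hq hh).eq_of_lt_of_lt (mem_range.1 (mem_filter.1 (mem_coe.1 hr)).1)
      (mem_range.1 (mem_filter.1 (mem_coe.1 hr')).1)

lemma grow {q : ℕ} (hq : Odd q) (R m j n : ℕ) :
    q ^ (II (DD (cd (xs q R m n))) m + (word q j ((T q)^[R * m] n % 2 ^ j)).card) * n ≤
      2 ^ (R * m + j) * (T q)^[j + R * m] n := by
  rw [word_period hq (Nat.mod_modEq _ _), Function.iterate_add_apply, pow_add, pow_add]
  have h1 := xs_grow hq R n m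
  have h2 := block_grow hq ((T q)^[R * m] n) j
  calc _ = q ^ (word q j ((T q)^[R * m] n)).card * (q ^ II (DD (cd (xs q R m n))) m * n) := by ring
    _ ≤ q ^ (word q j ((T q)^[R * m] n)).card * (2 ^ (R * m) * (T q)^[R * m] n) :=
        Nat.mul_le_mul_left _ h1
    _ = 2 ^ (R * m) * (q ^ (word q j ((T q)^[R * m] n)).card * (T q)^[R * m] n) := by ring
    _ ≤ 2 ^ (R * m) * (2 ^ j * (T q)^[j] ((T q)^[R * m] n)) := Nat.mul_le_mul_left _ h2
    _ = _ := by ring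

lemma exceed {q a K L n y : ℕ} {e : ℝ} (hq : 0 < q) (hn : 0 < n) (hL : n ≤ 2 ^ L) (he : 1 ≤ e)
    (h : q ^ a * n ≤ 2 ^ K * y) (hl : K * log 2 + L * (e - 1) * log 2 < a * log q) :
    (n : ℝ) ^ e < y := by
  have hn' : (0 : ℝ) < n := by exact_mod_cast hn
  have hq' : (0 : ℝ) < q := by exact_mod_cast hq
  have h1 : (q : ℝ) ^ a * n ≤ 2 ^ K * y := by exact_mod_cast h
  have hy : (0 : ℝ) < y := by
    have : (0 : ℝ) < 2 ^ K * y := lt_of_lt_of_le (by positivity) h1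
    exact (mul_pos_iff_of_pos_left (by positivity)).1 this
  have h2 := Real.log_le_log (by positivity) h1
  rw [log_mul (by positivity) hn'.ne', log_mul (by positivity) hy.ne', log_pow, log_pow] at h2
  have h3 : log n ≤ L * log 2 := by
    rw [← log_pow]; exact Real.log_le_log hn' (by exact_mod_cast hL)
  rw [Real.rpow_lt_iff_lt_log hn' hy]
  nlinarith [mul_le_mul_of_nonneg_left h3 (sub_nonneg.2 he)]

lemma gam_pos {q : ℕ} (h5 : 5 ≤ q) : log 2 < 9 / 20 * log q := by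
  have h1 : log ((2 : ℝ) ^ 20) < log ((q : ℝ) ^ 9) := by
    refine Real.log_lt_log (by positivity) (lt_of_lt_of_le (by norm_num : (2 : ℝ) ^ 20 < 5 ^ 9) ?_)
    gcongr; exact_mod_cast h5
  rw [log_pow, log_pow] at h1
  push_cast at h1
  linarith

open Classical in
theorem stage (hc : CoreStmt) {q : ℕ} (hq : Odd q) (h5 : 5 ≤ q) :
    ∃ (R T j2 : ℕ) (σ C ε : ℝ), 16 ≤ R ∧ 1 ≤ T ∧ 0 < σ ∧ σ ≤ 1 ∧ 0 ≤ C ∧ 0 < ε ∧
      ∀ m j s : ℕ, j2 ≤ j → T * j ≤ m → m ≤ (T + 1) * j →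
        (((Ico s (s + 2 ^ (R * m))).filter (fun n => 0 < n ∧ n ≤ 2 ^ (R * m + R) ∧
          ∀ k, (((gg q)^[k] n : ℕ) : ℝ) ≤ (n : ℝ) ^ (log q / log 4 + ε))).card : ℝ) ≤
          C * exp (-σ * j) * 2 ^ (R * m) := by
  obtain ⟨R, A, hR, hA, hc⟩ := hc q hq h5 (exp (1 / 400)) (one_lt_exp_iff.2 (by norm_num))
  have hA' : (2 : ℝ) ≤ A := by exact_mod_cast hA
  have hc0 : 0 < 4 / (A : ℝ) ^ 2 / 2 ^ R := by positivity
  have hc1 : 4 / (A : ℝ) ^ 2 / 2 ^ R ≤ 1 := by
    rw [div_div, div_le_one (by positivity)]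
    have : (1 : ℝ) ≤ 2 ^ R := one_le_pow₀ (by norm_num)
    nlinarith
  obtain ⟨C, hC⟩ := exists_pow_lt_of_lt_one (show (0 : ℝ) < 1 / 2 by norm_num)
    (show 1 - 4 / (A : ℝ) ^ 2 / 2 ^ R < 1 by linarith)
  obtain ⟨T', G, j0, hT, hc⟩ := hc C
  have hγ := gam_pos h5
  have hl2 : 0 < log 2 := log_pos (by norm_num)
  have hlq : 0 < log q := by linarith
  have hl4 : log 4 = 2 * log 2 := by
    rw [show (4 : ℝ) = 2 ^ 2 by norm_num, log_pow]; norm_num
  have hR' : (16 : ℝ) ≤ R := by exact_mod_cast hR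
  set γ := 9 / 20 * log q - log 2 with hγd
  have hγ0 : 0 < γ := by linarith
  set ζ := γ / (4 * log q * (R * (T' + 1))) with hζ
  set ε := γ / (4 * log 2 * (R * (T' + 1))) with hε
  have hζ0 : 0 < ζ := by positivity
  have hε0 : 0 < ε := by positivity
  obtain ⟨j1, hj1⟩ := exists_nat_gt (R * (log q / log 4 + ε) * log 2 / (γ / 2))
  set σ := min (1 / 800) (min (1 / 2 / 2 ^ R) (2 * ζ ^ 2)) with hσ
  have hσ1 : σ ≤ 1 / 800 := min_le_left _ _
  have hσ2 : σ ≤ 1 / 2 / 2 ^ R := (min_le_right _ _).trans (min_le_left _ _)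
  have hσ3 : σ ≤ 2 * ζ ^ 2 := (min_le_right _ _).trans (min_le_right _ _)
  have hσ0 : 0 < σ := by positivity
  refine ⟨R, T', j0 + j1 + 3, σ, 2 * T' + 1 + (32 * (G + 3)), ε, hR, hT, hσ0, by linarith,
    by positivity, hε0, fun m j s hj hm1 hm2 => ?_⟩
  obtain ⟨qi, hqi⟩ := exists_inv hq (R * m + j)
  set B := (range (2 ^ j)).filter (fun r => ((word q j r).card : ℝ) ≤ (1 / 2 - 1 / 20) * j) with hB
  have hj' : (0 : ℝ) ≤ j := by positivity
  have hjm : j ≤ R * m := by nlinarith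
  have hjm' : (j : ℝ) ≤ (R * m : ℕ) := by exact_mod_cast hjm
  have hG : (0 : ℝ) ≤ G := by positivity
  have h1 := interval_count hq R m j s B (η := 32 * (G + 3) * exp (-(1 / 800) * j)) (by positivity)
    (fun d => Typ R T' j (DD d) ∧ (1 / 2 - ζ) * (R * m : ℕ) ≤ (II (DD d) m : ℝ)) (by
      intro d hd hg
      have a1 := hc j (by omega) m hm1 hm2 qi hqi (DD d) (fun b => by
        unfold DD; split_ifs
        · exact hd _
        · exact Nat.zero_le _) hg.1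
      refine class_count hq hA R m j s (by omega) hqi d B
        (weight_sum (by linarith) (by linarith) hC.le _ a1) (by positivity) ?_
      have a2 : exp (1 / 400 : ℝ) ^ j = exp (1 / 400 * j) := by rw [← exp_nat_mul, mul_comm]
      have a3 : 1 ≤ exp (1 / 400 * j : ℝ) := one_le_exp (by positivity)
      have a4 : exp (-(1 / 800) * j : ℝ) ^ 2 = exp (-(1 / 200) * j) * exp (1 / 400 * j) := by
        rw [← exp_nat_mul, ← exp_add]; congr 1; push_cast; ring
      rw [a2, mul_pow, a4]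
      calc _ ≤ 32 * (exp (-(1 / 200) * j) * 2 ^ j) * ((G + 3) * exp (1 / 400 * j)) := by
            gcongr
            · exact bad_card hq j
            · nlinarith
        _ = (32 * (G + 3)) * (exp (-(1 / 200) * j) * exp (1 / 400 * j)) * 2 ^ j := by ring
        _ ≤ _ := by gcongr; nlinarith)
  have h2 : (((Fintype.piFinset (fun _ : Fin m => (range R).powerset)).filter
      (fun x => ¬ (Typ R T' j (DD (cd x)) ∧
        (1 / 2 - ζ) * (R * m : ℕ) ≤ (II (DD (cd x)) m : ℝ)))).card : ℝ) ≤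
      (2 * T' + 1) * exp (-σ * j) * 2 ^ (R * m) := by
    simp_rw [not_and_or]
    rw [filter_or]
    refine ((Nat.cast_le (α := ℝ)).2 (card_union_le _ _)).trans ?_
    rw [Nat.cast_add]
    have a1 := ld_typ R T' j m hm1 (fun x => ¬ Typ R T' j (DD (cd x))) (fun x hx => hx)
    have a2 := ld_ones R m 0 m (by omega) ζ hζ0.le
      (fun x => ¬ (1 / 2 - ζ) * (R * m : ℕ) ≤ (II (DD (cd x)) m : ℝ)) (fun x hx => by
        rw [zero_add, ← range_eq_Ico]; exact (not_le.1 hx).le)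
    have a3 : exp (-(1 / 8) * (R * j : ℕ)) ≤ exp (-σ * j) := by
      refine exp_le_exp.2 ?_
      push_cast; nlinarith
    have a4 : exp (-(1 / 2 / 2 ^ R) * j) ≤ exp (-σ * j) := exp_le_exp.2 (by nlinarith)
    have a5 : exp (-2 * ζ ^ 2 * (R * m : ℕ)) ≤ exp (-σ * j) :=
      exp_le_exp.2 (by nlinarith [sq_nonneg ζ])
    refine (add_le_add a1 a2).trans ?_
    calc _ ≤ T' * (exp (-σ * j) + exp (-σ * j)) * 2 ^ (R * m) + exp (-σ * j) * 2 ^ (R * m) := by
          gcongr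
      _ = _ := by ring
  have h3 : exp (-(1 / 800) * j : ℝ) ≤ exp (-σ * j) := exp_le_exp.2 (by nlinarith)
  refine le_trans ((Nat.cast_le (α := ℝ)).2 (card_le_card (monotone_filter_right _ ?_)))
    (h1.trans ?_)
  · intro n _ ⟨hn0, hn1, hn2⟩
    by_contra hcon
    rw [not_or, not_not] at hcon
    obtain ⟨⟨-, g1⟩, g2⟩ := hcon
    have g3 : (1 / 2 - 1 / 20) * (j : ℝ) < (word q j ((T q)^[R * m] n % 2 ^ j)).card := by
      by_contra g3
      exact g2 (mem_filter.2 ⟨mem_range.2 (Nat.mod_lt _ (by positivity)), not_lt.1 g3⟩)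
    obtain ⟨k, hk⟩ := T_iter hq n (j + R * m)
    have g4 := hn2 k
    rw [hk] at g4
    have hβ : 1 ≤ log q / log 4 := by
      rw [le_div_iff₀ (by linarith)]; linarith
    refine absurd g4 (not_le.2 (exceed (by omega) hn0 hn1 (by linarith) (grow hq R m j n) ?_))
    have e1 : log q / log 4 * log 2 = log q / 2 := by rw [hl4]; field_simp
    have e2 : (ζ * log q + ε * log 2) * (R * (T' + 1)) = γ / 2 := by
      rw [hζ, hε]; field_simp; ring
    have e3 : ((R * m : ℕ) : ℝ) ≤ R * (T' + 1) * j := by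
      have := Nat.mul_le_mul_left R hm2
      rw [mul_assoc]; exact_mod_cast this
    have e4 : R * (log q / log 4 + ε) * log 2 < j * (γ / 2) := by
      rw [div_lt_iff₀ (by positivity)] at hj1
      have : (j1 : ℝ) ≤ j := by exact_mod_cast (by omega : j1 ≤ j)
      nlinarith
    have e5 : (ζ * log q + ε * log 2) * (R * m : ℕ) ≤ γ / 2 * j := by
      rw [← e2, mul_assoc]; gcongr
    have e6 := mul_le_mul_of_nonneg_right g1 hlq.le
    have e7 := mul_le_mul_of_nonneg_right g3.le hlq.le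
    rw [Nat.cast_add, Nat.cast_add, Nat.cast_add]
    generalize ((R * m : ℕ) : ℝ) = kk at *
    have e8 : (kk + R) * (log q / log 4 + ε - 1) * log 2 = kk * (log q / 2) + kk * ε * log 2 -
        kk * log 2 + R * (log q / log 4 + ε) * log 2 - R * log 2 := by
      rw [← e1]; ring
    have e9 : 0 ≤ R * log 2 := by positivity
    rw [e8]
    nlinarith
  · calc _ ≤ (2 * T' + 1) * exp (-σ * j) * 2 ^ (R * m) +
          32 * (G + 3) * exp (-σ * j) * 2 ^ (R * m) := by gcongr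
      _ = _ := by ring

end Pool.Agent.MP_574b9b_nt

end MrgPart3

-- ======== part 4: formerly Pool.Agent.MP_574b9b_nt.Fin
section MrgPart4

set_option autoImplicit false

open Finset Real

namespace Pool.Agent.MP_574b9b_nt

open Classical in
theorem final_of (hc : CoreStmt) {q : ℕ} (hq : Odd q) (h5 : 5 ≤ q) :
    ∃ ε δ C : ℝ, 0 < ε ∧ 0 < δ ∧ ∀ N : ℕ,
      (((range N).filter (fun n => ∀ k, (((gg q)^[k] n : ℕ) : ℝ) ≤
        (n : ℝ) ^ (log q / log 4 + ε))).card : ℝ) ≤ C * (N : ℝ) ^ (1 - δ) := by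
  obtain ⟨R, T', j2, σ, C, ε, hR, hT, hσ, hσ1, hC, hε, h⟩ := stage hc hq h5
  have hl2 : 1 / 2 < log 2 := by linarith [Real.log_two_gt_d9]
  have hR' : (16 : ℝ) ≤ R := by exact_mod_cast hR
  have hT' : (1 : ℝ) ≤ T' := by exact_mod_cast hT
  have hden : 1 ≤ R * (T' + 2) * log 2 := by
    have : (16 : ℝ) * 3 ≤ R * (T' + 2) := by gcongr; linarith
    nlinarith
  set δ := σ / (R * (T' + 2) * log 2) with hδ
  have hδ0 : 0 < δ := by positivity
  have hδ1 : δ ≤ 1 := by rw [hδ, div_le_one (by linarith)]; linarith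
  refine ⟨ε, δ, 2 ^ (R * (T' * (j2 + T' + 1) + 1)) + (1 + 2 ^ R * C), hε, hδ0, fun N => ?_⟩
  rcases Nat.eq_zero_or_pos N with rfl | hN
  · simp only [range_zero, filter_empty, card_empty, Nat.cast_zero]; positivity
  have hN' : (1 : ℝ) ≤ N := by exact_mod_cast hN
  have hpow : 1 ≤ (N : ℝ) ^ (1 - δ) := one_le_rpow hN' (by linarith)
  set m := Nat.log 2 N / R with hm
  set j := m / T' with hj
  have hm1 : 2 ^ (R * m) ≤ N :=
    (Nat.pow_le_pow_right (by norm_num) (Nat.mul_div_le _ _)).trans (Nat.pow_log_le_self 2 hN.ne')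
  have hm2 : N < 2 ^ (R * m + R) := by
    refine (Nat.lt_pow_succ_log_self (b := 2) (by norm_num) N).trans_le
      (Nat.pow_le_pow_right (by norm_num) ?_)
    have := Nat.lt_mul_div_succ (Nat.log 2 N) (show 0 < R by omega)
    rw [mul_add, mul_one] at this
    exact this
  have hj1 : T' * j ≤ m := Nat.mul_div_le _ _
  have hj2 : m < T' * (j + 1) := Nat.lt_mul_div_succ m hT
  rw [add_mul]
  by_cases hs : j < j2 + T' + 1
  · have a1 : N ≤ 2 ^ (R * (T' * (j2 + T' + 1) + 1)) := by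
      refine hm2.le.trans (Nat.pow_le_pow_right (by norm_num) ?_)
      have := Nat.mul_le_mul_left T' (Nat.succ_le_of_lt hs)
      rw [mul_add, mul_one]
      exact Nat.add_le_add_right (Nat.mul_le_mul_left _ (hj2.le.trans this)) _
    have a2 := (card_filter_le (range N) (fun n => ∀ k, (((gg q)^[k] n : ℕ) : ℝ) ≤
        (n : ℝ) ^ (log q / log 4 + ε))).trans ((card_range N).le.trans a1)
    have a3 := (Nat.cast_le (α := ℝ)).2 a2
    push_cast at a3
    refine a3.trans (le_add_of_le_of_nonneg (le_mul_of_one_le_right (by positivity) hpow) ?_)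
    positivity
  refine le_add_of_nonneg_of_le (by positivity) ?_
  have hj3 : m ≤ (T' + 1) * j := by nlinarith
  have hsub : (range N).filter (fun n => ∀ k, (((gg q)^[k] n : ℕ) : ℝ) ≤
        (n : ℝ) ^ (log q / log 4 + ε)) ⊆ insert 0 ((range (2 ^ R)).biUnion (fun t =>
      (Ico (t * 2 ^ (R * m)) (t * 2 ^ (R * m) + 2 ^ (R * m))).filter (fun n => 0 < n ∧
        n ≤ 2 ^ (R * m + R) ∧
          ∀ k, (((gg q)^[k] n : ℕ) : ℝ) ≤ (n : ℝ) ^ (log q / log 4 + ε)))) := by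
    intro n hn
    obtain ⟨h1, h2⟩ := mem_filter.1 hn
    have h1 := mem_range.1 h1
    rcases Nat.eq_zero_or_pos n with rfl | h0
    · exact mem_insert_self _ _
    have hp : 0 < 2 ^ (R * m) := by positivity
    refine mem_insert_of_mem (mem_biUnion.2 ⟨n / 2 ^ (R * m), mem_range.2 ?_,
      mem_filter.2 ⟨mem_Ico.2 ⟨Nat.div_mul_le_self _ _, Nat.lt_div_mul_add hp⟩, h0, by omega, h2⟩⟩)
    rw [Nat.div_lt_iff_lt_mul hp, ← pow_add, add_comm]
    omega
  have h1 := (card_le_card hsub).trans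
    ((card_insert_le _ _).trans (Nat.add_le_add_right card_biUnion_le 1))
  refine ((Nat.cast_le (α := ℝ)).2 h1).trans ?_
  rw [Nat.cast_add, Nat.cast_sum, Nat.cast_one]
  have h2 := sum_le_card_nsmul (range (2 ^ R)) _ _
    (fun t _ => h m j (t * 2 ^ (R * m)) (by omega) hj1 hj3)
  rw [card_range, nsmul_eq_mul] at h2
  have h3 : exp (-σ * j) * 2 ^ (R * m) ≤ (N : ℝ) ^ (1 - δ) := by
    have a1 : (2 : ℝ) ^ (R * m) ≤ N := by exact_mod_cast hm1
    have a2 : log N ≤ (R * (T' + 2) * log 2) * j := by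
      have b1 : R * m + R ≤ R * (T' + 2) * j := by
        rw [mul_assoc, ← mul_add_one]
        exact Nat.mul_le_mul_left _ (by nlinarith)
      have b2 : (N : ℝ) ≤ 2 ^ (R * (T' + 2) * j) := by
        exact_mod_cast hm2.le.trans (Nat.pow_le_pow_right (by norm_num) b1)
      have b3 := Real.log_le_log (by linarith) b2
      rw [log_pow] at b3
      push_cast at b3
      linarith
    have a3 : δ * log N ≤ σ * j := by
      calc _ ≤ δ * ((R * (T' + 2) * log 2) * j) := by gcongr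
        _ = _ := by rw [hδ]; field_simp
    rw [rpow_sub (by linarith), rpow_one, le_div_iff₀ (by positivity),
      rpow_def_of_pos (by linarith), mul_right_comm, ← exp_add]
    calc _ ≤ 1 * (N : ℝ) := by
          gcongr
          exact exp_le_one_iff.2 (by linarith)
      _ = N := one_mul _
  push_cast at h2
  rw [add_mul, one_mul, add_comm]
  refine add_le_add hpow (h2.trans ?_)
  rw [mul_assoc, mul_assoc]
  gcongr

end Pool.Agent.MP_574b9b_nt

end MrgPart4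

-- ======== part 5: formerly Pool.Agent.MP_574b9b_nt.Core
section MrgPart5

/-! PROJECT HORIZ, module CORE: few frequencies have few white blocks. -/

set_option autoImplicit false

open Finset

namespace Pool.Agent.MP_574b9b_nt

namespace HCore

/-- The balanced residue at block `b`. -/
def V (R K : ℕ) (qi θ : ℤ) (D : ℕ → ℕ) (b : ℕ) : ℤ :=
  Int.bmod (θ * 2 ^ (R * (b + 1)) * qi ^ II D b) (2 ^ K)

/-- The digit at block `b`. -/
def Dg (q R K : ℕ) (qi θ : ℤ) (D : ℕ → ℕ) (b : ℕ) : ℤ :=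
  ((q : ℤ) ^ D b * V R K qi θ D (b + 1) - 2 ^ R * V R K qi θ D b) / 2 ^ K

theorem II_succ (D : ℕ → ℕ) (b : ℕ) : II D (b + 1) = II D b + D b := sum_range_succ _ _

theorem meq {x y n : ℤ} (h : x = y) : x ≡ y [ZMOD n] := h ▸ Int.ModEq.refl _

theorem bmod_eq (x : ℤ) (K : ℕ) : Int.bmod x (2 ^ K) ≡ x [ZMOD 2 ^ K] := by
  have := Int.bmod_emod (x := x) (m := 2 ^ K)
  push_cast at this
  exact this

theorem bmod_abs (x : ℤ) (K : ℕ) : 2 * |Int.bmod x (2 ^ K)| ≤ 2 ^ K := by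
  have hp : 0 < 2 ^ K := by positivity
  have h1 := Int.le_bmod (x := x) hp
  have h2 := Int.bmod_le (x := x) hp
  push_cast at h1 h2
  generalize (2 : ℤ) ^ K = M at *
  rcases abs_cases (Int.bmod x (2 ^ K)) with h | h <;> omega

variable {q R K A : ℕ} {qi θ θ' : ℤ} {D : ℕ → ℕ} {b : ℕ}

theorem pow_inv (h : (q : ℤ) * qi ≡ 1 [ZMOD 2 ^ K]) (n : ℕ) :
    (q : ℤ) ^ n * qi ^ n ≡ 1 [ZMOD 2 ^ K] := by
  simpa [mul_pow] using h.pow n

theorem V_abs : 2 * |V R K qi θ D b| ≤ 2 ^ K := bmod_abs _ _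

theorem V_step (h : (q : ℤ) * qi ≡ 1 [ZMOD 2 ^ K]) :
    (q : ℤ) ^ D b * V R K qi θ D (b + 1) ≡ 2 ^ R * V R K qi θ D b [ZMOD 2 ^ K] := by
  refine ((bmod_eq _ K).mul_left _).trans (Int.ModEq.trans ?_ ((bmod_eq _ K).mul_left _).symm)
  have := (pow_inv h (D b)).mul_left (2 ^ R * (θ * 2 ^ (R * (b + 1)) * qi ^ II D b))
  rw [mul_one] at this
  refine Int.ModEq.trans (by rw [II_succ]; exact meq (by ring)) this

theorem Dg_mul (h : (q : ℤ) * qi ≡ 1 [ZMOD 2 ^ K]) : 2 ^ K * Dg q R K qi θ D b =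
    (q : ℤ) ^ D b * V R K qi θ D (b + 1) - 2 ^ R * V R K qi θ D b :=
  Int.mul_ediv_cancel' (V_step h).symm.dvd

theorem Dg_abs (h : (q : ℤ) * qi ≡ 1 [ZMOD 2 ^ K]) (hq : 2 ≤ q) (hD : D b ≤ R) :
    2 ^ K * |Dg q R K qi θ D b| ≤
      (q : ℤ) ^ R * (|V R K qi θ D (b + 1)| + |V R K qi θ D b|) := by
  have h1 : (q : ℤ) ^ D b ≤ q ^ R := pow_le_pow_right₀ (by exact_mod_cast (by omega : 1 ≤ q)) hD
  have h2 : (2 : ℤ) ^ R ≤ q ^ R := pow_le_pow_left₀ (by norm_num) (by exact_mod_cast hq) _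
  have h3 : (2 : ℤ) ^ K * |Dg q R K qi θ D b| = |2 ^ K * Dg q R K qi θ D b| := by
    rw [abs_mul, abs_of_pos (by positivity : (0 : ℤ) < 2 ^ K)]
  rw [h3, Dg_mul h, mul_add]
  refine (abs_sub _ _).trans (add_le_add ?_ ?_)
  · rw [abs_mul, abs_of_nonneg (by positivity)]
    exact mul_le_mul_of_nonneg_right h1 (abs_nonneg _)
  · rw [abs_mul, abs_of_nonneg (by positivity)]
    exact mul_le_mul_of_nonneg_right h2 (abs_nonneg _)

theorem Dg_le (h : (q : ℤ) * qi ≡ 1 [ZMOD 2 ^ K]) (hq : 2 ≤ q) (hD : D b ≤ R) :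
    |Dg q R K qi θ D b| ≤ (q : ℤ) ^ R := by
  have h1 := Dg_abs (θ := θ) h hq hD
  have h2 := V_abs (R := R) (K := K) (qi := qi) (θ := θ) (D := D) (b := b)
  have h3 := V_abs (R := R) (K := K) (qi := qi) (θ := θ) (D := D) (b := b + 1)
  have h4 : (0 : ℤ) ≤ (q : ℤ) ^ R := by positivity
  refine le_of_mul_le_mul_left (h1.trans ?_) (by positivity : (0 : ℤ) < 2 ^ K)
  rw [mul_comm]
  exact mul_le_mul_of_nonneg_right (by linarith) h4

/-- Block `b` is neither empty, full nor white. -/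
def Clean (R A K : ℕ) (qi θ : ℤ) (D : ℕ → ℕ) (b : ℕ) : Prop :=
  0 < D b ∧ D b < R ∧ ¬ White R A K qi θ D b

theorem clean_small (h : (q : ℤ) * qi ≡ 1 [ZMOD 2 ^ K]) (hq : 2 ≤ q)
    (hA : A = 4 * (2 * q) ^ R * q ^ R) (hc : Clean R A K qi θ D b) :
    4 * ((q : ℤ) ^ R * |V R K qi θ D b|) < 2 ^ K := by
  obtain ⟨c1, c2, c3⟩ := hc
  have c4 := not_le.1 fun e => c3 ⟨c1, c2, e⟩
  have e0 := bmod_eq (θ * 2 ^ (R * b + D b - 1) * qi ^ (II D b + D b)) K
  generalize Int.bmod (θ * 2 ^ (R * b + D b - 1) * qi ^ (II D b + D b)) (2 ^ K) = W at c4 e0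
  have hq1 : (1 : ℤ) ≤ q := by exact_mod_cast (by omega : 1 ≤ q)
  have h1 : (q : ℤ) ^ D b ≤ q ^ R := pow_le_pow_right₀ hq1 c2.le
  have h2 : (2 : ℤ) ^ (R - D b + 1) ≤ 2 ^ R := pow_le_pow_right₀ (by norm_num) (by omega)
  have h3 : |2 ^ (R - D b + 1) * (q : ℤ) ^ D b * W| ≤ 2 ^ R * q ^ R * |W| := by
    rw [abs_mul, abs_of_nonneg (by positivity)]
    exact mul_le_mul_of_nonneg_right (mul_le_mul h2 h1 (by positivity) (by positivity))
      (abs_nonneg _)
  have h4 : 4 * ((q : ℤ) ^ R * |2 ^ (R - D b + 1) * (q : ℤ) ^ D b * W|) < 2 ^ K := by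
    refine lt_of_le_of_lt ?_ c4
    rw [hA]
    push_cast
    calc _ ≤ 4 * ((q : ℤ) ^ R * (2 ^ R * q ^ R * |W|)) := by gcongr
      _ = _ := by ring
  have h5 : V R K qi θ D b ≡ 2 ^ (R - D b + 1) * (q : ℤ) ^ D b * W [ZMOD 2 ^ K] := by
    refine (bmod_eq _ K).trans (Int.ModEq.trans ?_ (e0.mul_left _).symm)
    have := (pow_inv h (D b)).mul_left (θ * 2 ^ (R * (b + 1)) * qi ^ II D b)
    rw [mul_one] at this
    refine this.symm.trans (meq ?_)
    rw [show R * (b + 1) = (R - D b + 1) + (R * b + D b - 1) by rw [mul_add]; omega, pow_add]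
    ring
  generalize 2 ^ (R - D b + 1) * (q : ℤ) ^ D b * W = X at h4 h5
  have h6 := V_abs (R := R) (K := K) (qi := qi) (θ := θ) (D := D) (b := b)
  have h7 : |X| ≤ (q : ℤ) ^ R * |X| := le_mul_of_one_le_left (abs_nonneg _) (one_le_pow₀ hq1)
  have h8 := Int.eq_zero_of_abs_lt_dvd h5.dvd ((abs_sub _ _).trans_lt
    (by linarith [abs_nonneg X]))
  rw [← sub_eq_zero.1 h8]
  exact h4

theorem Dg_zero (h : (q : ℤ) * qi ≡ 1 [ZMOD 2 ^ K]) (hq : 2 ≤ q)
    (hA : A = 4 * (2 * q) ^ R * q ^ R) (hc : Clean R A K qi θ D b)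
    (hc' : Clean R A K qi θ D (b + 1)) : Dg q R K qi θ D b = 0 := by
  have h1 := Dg_abs (θ := θ) h hq hc.2.1.le
  have h2 := clean_small h hq hA hc
  have h3 := clean_small h hq hA hc'
  have h4 : (0 : ℤ) < 2 ^ K := by positivity
  by_contra h5
  have h6 := mul_le_mul_of_nonneg_left (Int.one_le_abs h5) h4.le
  rw [mul_add] at h1
  linarith

theorem inj {j τ : ℕ} (h : (q : ℤ) * qi ≡ 1 [ZMOD 2 ^ K]) (hq : Odd q) (hG : Good q R j K D τ)
    (h1 : θ ∈ Icc (-(2 : ℤ) ^ j) (2 ^ j)) (h2 : θ' ∈ Icc (-(2 : ℤ) ^ j) (2 ^ j))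
    (he : ∀ c < 2 * j, Dg q R K qi θ D (τ * j + c) = Dg q R K qi θ' D (τ * j + c)) : θ = θ' := by
  have key : ∀ c ≤ 2 * j, (q : ℤ) ^ II D (τ * j + c) *
      (V R K qi θ D (τ * j + c) - V R K qi θ' D (τ * j + c)) = 2 ^ (R * c) *
      ((q : ℤ) ^ II D (τ * j) * (V R K qi θ D (τ * j) - V R K qi θ' D (τ * j))) := by
    intro c
    induction c with
    | zero => intro _; simp
    | succ c ih =>
      intro hc
      have e1 := Dg_mul (R := R) (θ := θ) (D := D) (b := τ * j + c) h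
      rw [he c (by omega), Dg_mul h] at e1
      rw [← add_assoc, II_succ]
      linear_combination 2 ^ R * ih (by omega) - (q : ℤ) ^ II D (τ * j + c) * e1
  rw [mem_Icc] at h1 h2
  refine sub_eq_zero.1 (hG (θ - θ') ((q : ℤ) ^ II D (τ * j) *
    (V R K qi θ D (τ * j) - V R K qi θ' D (τ * j))) ?_ ?_ ?_ ?_)
  · rw [abs_le, pow_succ]; constructor <;> linarith
  · have h3 : IsCoprime ((q : ℤ) ^ II D ((τ + 2) * j)) (2 ^ (R * (2 * j))) := by
      refine IsCoprime.pow ?_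
      have := Nat.isCoprime_iff_coprime.2 (Nat.coprime_two_right.2 hq)
      exact_mod_cast this
    refine h3.dvd_of_dvd_mul_left ?_
    rw [← key _ le_rfl, add_mul]
    exact dvd_mul_right _ _
  · rw [abs_mul, abs_of_nonneg (by positivity)]
    refine mul_le_mul_of_nonneg_left ((abs_sub _ _).trans ?_) (by positivity)
    have h3 := V_abs (R := R) (K := K) (qi := qi) (θ := θ) (D := D) (b := τ * j)
    have h4 := V_abs (R := R) (K := K) (qi := qi) (θ := θ') (D := D) (b := τ * j)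
    linarith
  · refine (Int.ModEq.symm ?_).dvd
    refine (((bmod_eq _ K).sub (bmod_eq _ K)).mul_left _).trans ?_
    have := (pow_inv h (II D (τ * j))).mul_left ((θ - θ') * 2 ^ (R * (τ * j + 1)))
    rw [mul_one] at this
    exact (meq (by ring)).trans this

/-- The support of the digit vector. -/
theorem supp_le {x n : ℕ} (P : ℕ → Prop) [DecidablePred P] (f : ℕ → ℤ)
    (h : ∀ b, ¬ P b → ¬ P (b + 1) → f b = 0) :
    (univ.filter fun c : Fin n => f (x + c) ≠ 0).card ≤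
      2 * ((Ico x (x + n)).filter P).card + 1 := by
  set S := (Ico x (x + n)).filter P with hS
  have h1 : (univ.filter fun c : Fin n => f (x + c) ≠ 0).card ≤
      (S ∪ (insert (x + n) S).image fun b => b - 1).card := by
    refine card_le_card_of_injOn (fun c => x + c) (fun c hc => ?_)
      fun c _ c' _ e => Fin.ext (by simpa using e)
    have h2 := (mem_filter.1 (mem_coe.1 hc)).2
    have h3 := c.2
    rw [mem_coe, mem_union]
    by_cases p : P (x + c)
    · exact Or.inl (mem_filter.2 ⟨mem_Ico.2 ⟨Nat.le_add_right _ _, Nat.add_lt_add_left h3 _⟩, p⟩)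
    have p' : P (x + c + 1) := by_contra fun p' => h2 (h _ p p')
    refine Or.inr (mem_image.2 ⟨x + c + 1, ?_, rfl⟩)
    by_cases h4 : (c : ℕ) + 1 = n
    · exact mem_insert.2 (Or.inl (by omega))
    · exact mem_insert_of_mem (mem_filter.2 ⟨mem_Ico.2 (by omega), p'⟩)
  have h5 := card_union_le S ((insert (x + n) S).image fun b => b - 1)
  have h6 := card_image_le (s := insert (x + n) S) (f := fun b => b - 1)
  have h7 := card_insert_le (x + n) S
  omega

/-- The number of sparse vectors. -/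
theorem sparse {ι : Type} (n B : ℕ) (lam t : ℝ) (hl : 1 ≤ lam) (S : Finset ι) (v : ι → Fin n → ℤ)
    (h1 : Set.InjOn v S) (h2 : ∀ x ∈ S, ∀ c, |v x c| ≤ B)
    (h3 : ∀ x ∈ S, ((univ.filter fun c => v x c ≠ 0).card : ℝ) ≤ t) :
    (S.card : ℝ) ≤ Real.exp (Real.log lam * t) * (1 + 2 * B / lam) ^ n := by
  have hp : 0 < lam := by linarith
  let w : ℤ → ℝ := fun x => if x = 0 then 1 else lam⁻¹
  have w0 : ∀ x, 0 ≤ w x := fun x => by
    simp only [w]; split_ifs <;> positivity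
  have e1 : ∑ x ∈ Icc (-(B : ℤ)) B, w x = 1 + 2 * B / lam := by
    rw [← add_sum_erase _ _ (show (0 : ℤ) ∈ Icc (-(B : ℤ)) B by simp),
      sum_congr rfl (g := fun _ => lam⁻¹) fun x hx => if_neg (ne_of_mem_erase hx), sum_const,
      card_erase_of_mem (by simp), Int.card_Icc,
      show ((B : ℤ) + 1 - -(B : ℤ)).toNat - 1 = 2 * B by omega]
    simp [w, div_eq_mul_inv]
  have e2 : ∀ x ∈ S, (1 : ℝ) ≤ Real.exp (Real.log lam * t) * ∏ c, w (v x c) := by
    intro x hx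
    have e3 : ∏ c, w (v x c) = lam⁻¹ ^ (univ.filter fun c => v x c ≠ 0).card := by
      simp only [w]
      rw [prod_ite]
      simp
    rw [e3, inv_pow, ← div_eq_mul_inv, le_div_iff₀ (by positivity), one_mul]
    calc _ = Real.exp (Real.log lam * (univ.filter fun c => v x c ≠ 0).card) := by
          rw [mul_comm, Real.exp_nat_mul, Real.exp_log hp]
      _ ≤ _ := Real.exp_le_exp.2 (mul_le_mul_of_nonneg_left (h3 x hx) (Real.log_nonneg hl))
  calc (S.card : ℝ) = ∑ _ ∈ S, (1 : ℝ) := by simp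
    _ ≤ ∑ x ∈ S, Real.exp (Real.log lam * t) * ∏ c, w (v x c) := sum_le_sum e2
    _ = Real.exp (Real.log lam * t) * ∑ u ∈ S.image v, ∏ c, w (u c) := by
        rw [← mul_sum, sum_image h1]
    _ ≤ Real.exp (Real.log lam * t) *
        ∑ u ∈ Fintype.piFinset fun _ : Fin n => Icc (-(B : ℤ)) B, ∏ c, w (u c) := by
        refine mul_le_mul_of_nonneg_left (sum_le_sum_of_subset_of_nonneg (fun u hu => ?_)
          fun u _ _ => prod_nonneg fun c _ => w0 _) (Real.exp_pos _).le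
        obtain ⟨x, hx, rfl⟩ := mem_image.1 hu
        exact Fintype.mem_piFinset.2 fun c => mem_Icc.2 (abs_le.1 (h2 x hx c))
    _ = _ := by rw [← prod_univ_sum, e1]; simp

theorem windows (P : ℕ → Prop) [DecidablePred P] {a : ℕ → ℕ} (ha : Monotone a) (G : ℕ) :
    ∑ g ∈ range G, ((Ico (a g) (a (g + 1))).filter P).card ≤ ((range (a G)).filter P).card := by
  induction G with
  | zero => simp
  | succ G ih =>
    rw [sum_range_succ, range_eq_Ico (a (G + 1)),
      ← Ico_union_Ico_eq_Ico (Nat.zero_le (a G)) (ha (Nat.le_add_right G 1)), filter_union,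
      card_union_of_disjoint (disjoint_filter_filter (Ico_disjoint_Ico_consecutive _ _ _)),
      ← range_eq_Ico]
    omega

theorem sq_le_pow {R : ℕ} (h : 4 ≤ R) : R * R ≤ 2 ^ R := by
  induction R, h using Nat.le_induction with
  | base => norm_num
  | succ n hn ih => rw [pow_succ]; nlinarith

/-- The count in one good window. -/
theorem one_window {j τ T : ℕ} (h : (q : ℤ) * qi ≡ 1 [ZMOD 2 ^ K]) (hq : Odd q) (hq2 : 2 ≤ q)
    (hA : A = 4 * (2 * q) ^ R * q ^ R) (hD : ∀ b, D b ≤ R) (hT : Typ R T j D) (hτ : τ + 2 ≤ T)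
    (hG : Good q R j K D τ) (lam s : ℝ) (hl : 1 ≤ lam) (S : Finset ℤ)
    (h1 : S ⊆ Icc (-(2 : ℤ) ^ j) (2 ^ j))
    (h2 : ∀ θ ∈ S, (((Ico (τ * j) ((τ + 2) * j)).filter (White R A K qi θ D)).card : ℝ) ≤ s) :
    (S.card : ℝ) ≤ Real.exp (Real.log lam * (1 + 16 * j / 2 ^ R + 2 * s)) *
      (1 + 2 * (q ^ R : ℕ) / lam) ^ (2 * j) := by
  classical
  refine sparse (2 * j) (q ^ R) lam _ hl S (fun θ c => Dg q R K qi θ D (τ * j + c))
    (fun θ hθ θ' hθ' e => inj h hq hG (h1 hθ) (h1 hθ') fun c hc => congrFun e ⟨c, hc⟩)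
    (fun θ _ c => by exact_mod_cast Dg_le h hq2 (hD _)) fun θ hθ => ?_
  have e1 := supp_le (x := τ * j) (n := 2 * j) (fun b => ¬ Clean R A K qi θ D b)
    (Dg q R K qi θ D) fun b p p' => Dg_zero h hq2 hA (not_not.1 p) (not_not.1 p')
  have e2 : ((Ico (τ * j) (τ * j + 2 * j)).filter fun b => ¬ Clean R A K qi θ D b) ⊆
      ((Ico (τ * j) ((τ + 1) * j)).filter (fun b => D b = 0 ∨ D b = R) ∪
        (Ico ((τ + 1) * j) ((τ + 1 + 1) * j)).filter (fun b => D b = 0 ∨ D b = R)) ∪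
      (Ico (τ * j) ((τ + 2) * j)).filter (White R A K qi θ D) := by
    intro b hb
    obtain ⟨b1, b2⟩ := mem_filter.1 hb
    have b3 := hD b
    simp only [mem_union, mem_filter, mem_Ico, add_mul, one_mul] at b1 ⊢
    by_cases b4 : White R A K qi θ D b
    · exact Or.inr ⟨b1, b4⟩
    have b5 : D b = 0 ∨ D b = R := by
      by_contra b6
      exact b2 ⟨by omega, by omega, b4⟩
    by_cases b7 : b < τ * j + j
    · exact Or.inl (Or.inl ⟨⟨b1.1, b7⟩, b5⟩)
    · exact Or.inl (Or.inr ⟨⟨by omega, by omega⟩, b5⟩)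
  have e3 := (card_le_card e2).trans ((card_union_le _ _).trans
    (Nat.add_le_add_right (card_union_le _ _) _))
  have e4 : ∀ σ < T, (((Ico (σ * j) ((σ + 1) * j)).filter
      (fun b => D b = 0 ∨ D b = R)).card : ℝ) ≤ 4 * j / 2 ^ R := fun σ hσ => by
    rw [le_div_iff₀ (by positivity)]
    exact_mod_cast (hT σ hσ).2
  have e5 := e4 τ (by omega)
  have e6 := e4 (τ + 1) (by omega)
  have e7 := h2 θ hθ
  have e8 := (Nat.cast_le (α := ℝ)).2 e1
  have e9 := (Nat.cast_le (α := ℝ)).2 e3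
  push_cast at e8 e9 ⊢
  have e10 : (16 : ℝ) * j / 2 ^ R = 4 * (4 * j / 2 ^ R) := by ring
  linarith

end HCore

open HCore in
theorem core (h : WinStmt) : CoreStmt := by
  intro q hq hq5 ρ hρ
  have hσ : 0 < Real.log ρ / 4 := by have := Real.log_pos hρ; positivity
  have hρ' : ∀ j : ℕ, ρ ^ j = Real.exp (4 * (Real.log ρ / 4) * j) := fun j => by
    rw [mul_comm, Real.exp_nat_mul, mul_div_cancel₀ _ (by norm_num), Real.exp_log (by linarith)]
  generalize Real.log ρ / 4 = σ at hσ hρ'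
  obtain ⟨Λ, hΛ⟩ := exists_nat_gt (2 / σ)
  have hΛ0 : (0 : ℝ) < Λ := lt_trans (by positivity) hΛ
  have hΛ1 : (1 : ℝ) ≤ Λ := by exact_mod_cast Nat.cast_pos.1 hΛ0
  have hΛ2 : 2 / Λ ≤ σ := by
    rw [div_lt_iff₀ hσ] at hΛ
    rw [div_le_iff₀ hΛ0]; linarith
  have hq1 : (1 : ℝ) ≤ q := by exact_mod_cast (by omega : 1 ≤ q)
  obtain ⟨R₀, hR₀⟩ := exists_nat_ge (16 * (Real.log q + Real.log (2 * Λ)) / σ)
  obtain ⟨R, hR, hR'⟩ : ∃ R : ℕ, 16 ≤ R ∧ R₀ ≤ R := ⟨_, le_max_left _ _, le_max_right _ _⟩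
  obtain ⟨lam, hlam⟩ : ∃ lam : ℝ, lam = q ^ R * (2 * Λ) := ⟨_, rfl⟩
  have hl : 1 ≤ lam := hlam ▸ one_le_mul_of_one_le_of_one_le (one_le_pow₀ hq1) (by linarith)
  have hl0 := Real.log_nonneg hl
  have hl1 : 16 * Real.log lam ≤ σ * 2 ^ R := by
    have a1 : (R : ℝ) * R ≤ 2 ^ R := by exact_mod_cast sq_le_pow (by omega)
    have a2 : (R₀ : ℝ) ≤ R := by exact_mod_cast hR'
    have a3 : (16 : ℝ) ≤ R := by exact_mod_cast hR
    have a4 := Real.log_nonneg (show (1 : ℝ) ≤ 2 * Λ by linarith)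
    have a5 := (div_le_iff₀ hσ).1 (hR₀.trans a2)
    rw [hlam, Real.log_mul (by positivity) (by positivity), Real.log_pow]
    nlinarith [mul_le_mul_of_nonneg_left a5 (show (0 : ℝ) ≤ R by positivity),
      mul_le_mul_of_nonneg_left a1 hσ.le]
  refine ⟨R, 4 * (2 * q) ^ R * q ^ R, hR, ?_, fun C => ?_⟩
  · have : 0 < (2 * q) ^ R * q ^ R := by positivity
    rw [mul_assoc]; omega
  obtain ⟨G₀, hG₀⟩ := exists_nat_ge (2 * C * Real.log lam / σ)
  obtain ⟨T, j0, a, hT, ha, haT, H⟩ := h q hq hq5 R hR (G₀ + 1)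
  obtain ⟨j1, hj1⟩ := exists_nat_ge (Real.log lam / σ)
  refine ⟨T, G₀ + 1, max j0 j1, hT, fun j hj m hm hm' qi hqi D hD hTy => ?_⟩
  choose! τ t1 t2 t3 using H j (le_of_max_le_left hj) m hm hm' D hD hTy
  set W := fun θ => White R (4 * (2 * q) ^ R * q ^ R) (R * m + j) qi θ D with hW
  let S : ℕ → Finset ℤ := fun g => (Icc (-(2 : ℤ) ^ j) (2 ^ j)).filter fun θ =>
    (G₀ + 1) * ((Ico (a g * j) (a (g + 1) * j)).filter (W θ)).card ≤ C * j
  have s1 : (Icc (-(2 : ℤ) ^ j) (2 ^ j)).filter (fun θ => ((range m).filter (W θ)).card ≤ C * j) ⊆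
      (range (G₀ + 1)).biUnion S := by
    intro θ hθ
    obtain ⟨b1, b2⟩ := mem_filter.1 hθ
    have b3 := windows (W θ) (a := fun g => a g * j)
      (fun _ _ e => Nat.mul_le_mul_right _ (ha e)) (G₀ + 1)
    have b4 : ((range (a (G₀ + 1) * j)).filter (W θ)).card ≤ ((range m).filter (W θ)).card :=
      card_le_card (filter_subset_filter _
        (range_mono ((Nat.mul_le_mul_right _ haT).trans hm)))
    obtain ⟨g, g1, g2⟩ := exists_le_of_sum_le (s := range (G₀ + 1)) (by simp)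
      (f := fun g => (G₀ + 1) * ((Ico (a g * j) (a (g + 1) * j)).filter (W θ)).card)
      (g := fun _ => C * j) (by
        rw [← mul_sum, sum_const, card_range, smul_eq_mul]
        exact Nat.mul_le_mul_left _ (b3.trans (b4.trans b2)))
    exact mem_biUnion.2 ⟨g, g1, mem_filter.2 ⟨b1, g2⟩⟩
  have s2 : ∀ g ∈ range (G₀ + 1), ((S g).card : ℝ) ≤ ρ ^ j := by
    intro g hg
    rw [mem_range] at hg
    have hG : (0 : ℝ) < G₀ + 1 := by positivity
    refine (one_window hqi hq (by omega) rfl hD hTy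
      ((t2 g hg).trans ((ha (by omega)).trans haT)) (t3 g hg) lam (C * j / (G₀ + 1)) hl (S g)
      (filter_subset _ _) fun θ hθ => ?_).trans ?_
    · have b1 := (mem_filter.1 hθ).2
      have b2 : ((Ico (τ g * j) ((τ g + 2) * j)).filter (W θ)).card ≤
          ((Ico (a g * j) (a (g + 1) * j)).filter (W θ)).card :=
        card_le_card (filter_subset_filter _ (Ico_subset_Ico
          (Nat.mul_le_mul_right _ (t1 g hg)) (Nat.mul_le_mul_right _ (t2 g hg))))
      rw [le_div_iff₀ hG, mul_comm]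
      exact_mod_cast (Nat.mul_le_mul_left _ b2).trans b1
    have hj0 : (0 : ℝ) ≤ j := Nat.cast_nonneg _
    have c1 : Real.log lam ≤ σ * j := by
      have : (j1 : ℝ) ≤ j := by exact_mod_cast le_of_max_le_right hj
      have := (div_le_iff₀ hσ).1 (hj1.trans this)
      linarith
    have c2 : Real.log lam * (16 * j / 2 ^ R) ≤ σ * j := by
      rw [← mul_div_assoc, div_le_iff₀ (by positivity)]
      nlinarith [mul_le_mul_of_nonneg_right hl1 hj0]
    have c3 : Real.log lam * (2 * (C * j / (G₀ + 1))) ≤ σ * j := by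
      rw [← mul_div_assoc, ← mul_div_assoc, div_le_iff₀ hG]
      have := (div_le_iff₀ hσ).1 hG₀
      nlinarith [mul_le_mul_of_nonneg_right this hj0, mul_nonneg hσ.le hj0]
    have c4 : (1 + 2 * ((q ^ R : ℕ) : ℝ) / lam) ^ (2 * j) ≤ Real.exp (σ * j) := by
      have d1 : 2 * ((q ^ R : ℕ) : ℝ) / lam = 1 / Λ := by
        rw [hlam]; push_cast; field_simp
      rw [d1, add_comm]
      refine (pow_le_pow_left₀ (by positivity) (Real.add_one_le_exp _) _).trans ?_
      rw [← Real.exp_nat_mul]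
      refine Real.exp_le_exp.2 ?_
      push_cast
      calc 2 * (j : ℝ) * (1 / Λ) = 2 / Λ * j := by ring
        _ ≤ _ := mul_le_mul_of_nonneg_right hΛ2 hj0
    refine (mul_le_mul_of_nonneg_left c4 (Real.exp_pos _).le).trans ?_
    rw [← Real.exp_add, hρ']
    refine Real.exp_le_exp.2 ?_
    rw [mul_add, mul_add]
    linarith
  calc _ ≤ (((range (G₀ + 1)).biUnion S).card : ℝ) := by exact_mod_cast card_le_card s1
    _ ≤ ∑ g ∈ range (G₀ + 1), ((S g).card : ℝ) := by exact_mod_cast card_biUnion_le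
    _ ≤ _ := by simpa using sum_le_sum s2

end Pool.Agent.MP_574b9b_nt

end MrgPart5

-- ======== part 6: formerly Pool.Agent.MP_574b9b_nt.Win
section MrgPart6

set_option autoImplicit false

open Finset

namespace Pool.Agent.MP_574b9b_nt

namespace Win

/-- The two logarithm estimate in the scaled form used for one window. -/
def TLok (q T a b k0 : ℕ) : Prop :=
  ∀ k, k0 ≤ k → ∀ N i e : ℕ, k ≤ 2 * N → N ≤ 2 * k → b * k ≤ 8 * T * i →
    T * e ≤ (q + 1) * a * k → ∀ U Θ : ℤ, Θ ≠ 0 → |U| ≤ 2 ^ e → |Θ| ≤ 2 ^ e →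
      ¬ (q : ℤ) ^ i ∣ 2 ^ N * U + Θ

lemma TLok.scale {q T a b k0 k1 S : ℕ} (h : TLok q T a b k0) (hS : 0 < S) (hk : k0 ≤ k1) :
    TLok q (S * T) (S * a) (S * b) k1 := fun k hk' N i e h1 h2 h3 h4 =>
  h k (hk.trans hk') N i e h1 h2
    (Nat.le_of_mul_le_mul_left (by linarith [h3, show S * (b * k) = S * b * k by ring,
      show S * (8 * T * i) = 8 * (S * T) * i by ring]) hS)
    (Nat.le_of_mul_le_mul_left (by linarith [h4, show S * (T * e) = S * T * e by ring,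
      show S * ((q + 1) * a * k) = (q + 1) * (S * a) * k by ring]) hS)

lemma windows (h : TwoLogStmt) {q : ℕ} (hq : Odd q) (h5 : 5 ≤ q) (G : ℕ) :
    ∃ (T k0 : ℕ) (a : ℕ → ℕ), 1 ≤ a 0 ∧ (∀ g, a g + 2 ≤ a (g + 1)) ∧ 2 * a G ≤ T ∧
      ∀ g, g < G → TLok q T (a g) (a (g + 1)) k0 := by
  induction G with
  | zero =>
    exact ⟨2, 0, fun g => 2 * g + 1, le_rfl, fun g => by dsimp only; omega, le_rfl,
      fun g hg => by omega⟩
  | succ G ih =>
    obtain ⟨T, k0, a, h0, hs, hT, hl⟩ := ih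
    obtain ⟨A', k1, hA⟩ := h q hq h5 (8 * T)
    have hm : Monotone a := monotone_nat_of_le_succ fun g => by have := hs g; omega
    have hT1 : 1 ≤ T := by have := hm (Nat.zero_le G); omega
    obtain ⟨S, hS⟩ : ∃ S, S = A' * (q + 1) + 3 := ⟨_, rfl⟩
    have hS3 : 3 ≤ S := by omega
    refine ⟨S * T, max k0 k1, fun g => Nat.casesOn g 1 fun g => S * a g, le_rfl, ?_, ?_, ?_⟩
    · rintro (_ | g)
      · change 1 + 2 ≤ S * a 0
        nlinarith
      · change S * a g + 2 ≤ S * a (g + 1)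
        nlinarith [hs g]
    · change 2 * (S * a G) ≤ S * T
      nlinarith
    · rintro (_ | g) hg
      · change TLok q (S * T) 1 (S * a 0) _
        intro k hk N i e h1 h2 h3 h4
        refine hA k ((le_max_right _ _).trans hk) N i e h1 h2 ?_ ?_
        · refine Nat.le_of_mul_le_mul_left ?_ (show 0 < S by omega)
          calc S * k ≤ S * a 0 * k := Nat.mul_le_mul_right _ (Nat.le_mul_of_pos_right _ h0)
            _ ≤ 8 * (S * T) * i := h3
            _ = S * (8 * T * i) := by ring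
        · refine Nat.le_of_mul_le_mul_left ?_ (show 0 < q + 1 by omega)
          calc (q + 1) * (A' * e) = A' * (q + 1) * e := by ring
            _ ≤ S * T * e := Nat.mul_le_mul_right _
                ((by omega : A' * (q + 1) ≤ S).trans (Nat.le_mul_of_pos_right _ hT1))
            _ ≤ (q + 1) * 1 * k := h4
            _ = (q + 1) * k := by ring
      · exact (hl g (by omega)).scale (by omega) (le_max_left _ _)

lemma II_mono (D : ℕ → ℕ) : Monotone (II D) := fun _ _ h =>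
  sum_le_sum_of_subset (range_mono h)

lemma II_le {D : ℕ → ℕ} {R : ℕ} (h : ∀ b, D b ≤ R) (b : ℕ) : II D b ≤ R * b := by
  have := sum_le_card_nsmul (range b) D R fun c _ => h c
  rwa [card_range, smul_eq_mul, mul_comm] at this

lemma II_inc {R T j : ℕ} {D : ℕ → ℕ} (h : Typ R T j D) {τ : ℕ} (hτ : τ < T) :
    4 * II D (τ * j) + R * j ≤ 4 * II D ((τ + 1) * j) := by
  have h1 := (h τ hτ).1
  have h2 := sum_range_add_sum_Ico D (Nat.mul_le_mul_right j (Nat.le_succ τ))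
  unfold II
  rw [← h2]
  simp only [Nat.succ_eq_add_one] at *
  omega

lemma II_ge {R T j : ℕ} {D : ℕ → ℕ} (h : Typ R T j D) :
    ∀ b, b ≤ T → b * (R * j) ≤ 4 * II D (b * j)
  | 0, _ => by simp
  | b + 1, hb => by
    have h1 := II_ge h b (by omega)
    have h2 := II_inc h (show b < T by omega)
    rw [add_mul, one_mul]
    omega

lemma five_pow {h j : ℕ} (hj : 2 ≤ j) (hh : 16 * j ≤ h) : 4 ^ (h + j + 2) < 5 ^ h := by
  obtain ⟨r, rfl⟩ := Nat.exists_eq_add_of_le hh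
  have h1 : (4 ^ 16 * 4 * 8) ^ j ≤ (5 ^ 16) ^ j := Nat.pow_le_pow_left (by norm_num) j
  have h2 : 4 ^ r ≤ 5 ^ r := Nat.pow_le_pow_left (by norm_num) r
  have h3 : 8 ^ 2 ≤ 8 ^ j := Nat.pow_le_pow_right (by norm_num) hj
  have h4 : 0 < (4 ^ 16) ^ j * 4 ^ j * 4 ^ r := by positivity
  calc 4 ^ (16 * j + r + j + 2) = (4 ^ 16) ^ j * 4 ^ j * 4 ^ r * 16 := by
        rw [← pow_mul]; ring
    _ < (4 ^ 16) ^ j * 4 ^ j * 4 ^ r * 8 ^ j := Nat.mul_lt_mul_of_pos_left (by omega) h4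
    _ = (4 ^ 16 * 4 * 8) ^ j * 4 ^ r := by
        rw [mul_pow, mul_pow]
        exact mul_right_comm _ _ _
    _ ≤ (5 ^ 16) ^ j * 5 ^ r := Nat.mul_le_mul h1 h2
    _ = 5 ^ (16 * j + r) := by rw [← pow_mul, pow_add]

lemma gap {q h j A0 A1 A2 : ℕ} (h5 : 5 ≤ q) (hj : 2 ≤ j) (hh : 16 * j ≤ h)
    (h1 : 4 * A0 + h ≤ 4 * A1) (h2 : 4 * A1 + h ≤ 4 * A2) :
    2 ^ (j + 1) * (2 ^ h * q ^ A0 + q ^ A1) < q ^ A2 := by
  obtain ⟨d, hd⟩ := Nat.exists_eq_add_of_le (show A0 ≤ A2 by omega)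
  obtain ⟨c, hc⟩ := Nat.exists_eq_add_of_le (show A1 ≤ A2 by omega)
  have e1 : 2 ^ (h + j + 2) < q ^ d := by
    refine lt_of_pow_lt_pow_left₀ 2 (Nat.zero_le _) ?_
    calc (2 ^ (h + j + 2)) ^ 2 = 4 ^ (h + j + 2) := by
          rw [← pow_mul, mul_comm, pow_mul]; norm_num
      _ < 5 ^ h := five_pow hj hh
      _ ≤ 5 ^ (d * 2) := Nat.pow_le_pow_right (by norm_num) (by omega)
      _ ≤ q ^ (d * 2) := Nat.pow_le_pow_left h5 _
      _ = (q ^ d) ^ 2 := pow_mul _ _ _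
  have e2 : 2 ^ (j + 2) ≤ q ^ c :=
    (Nat.pow_le_pow_right (by norm_num) (by omega)).trans (Nat.pow_le_pow_left (by omega) c)
  have p0 : 0 < q ^ A0 := by positivity
  have f1 : q ^ A0 * 2 ^ (h + j + 2) < q ^ A2 := by
    rw [hd, pow_add q]
    exact Nat.mul_lt_mul_of_pos_left e1 p0
  have f2 : q ^ A1 * 2 ^ (j + 2) ≤ q ^ A2 := by
    rw [hc, pow_add q]
    exact Nat.mul_le_mul_left _ e2
  have g : 2 * (2 ^ (j + 1) * (2 ^ h * q ^ A0 + q ^ A1)) =
      q ^ A0 * 2 ^ (h + j + 2) + q ^ A1 * 2 ^ (j + 2) := by ring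
  omega

/-- A witness that a double interval is not good. -/
def Wit (q R j K : ℕ) (D : ℕ → ℕ) (τ : ℕ) (θ Y : ℤ) : Prop :=
  θ ≠ 0 ∧ |θ| ≤ 2 ^ (j + 1) ∧ (q : ℤ) ^ II D ((τ + 2) * j) ∣ Y ∧
    |Y| ≤ (q : ℤ) ^ II D (τ * j) * 2 ^ K ∧ (2 : ℤ) ^ K ∣ Y - θ * 2 ^ (R * (τ * j + 1))

lemma wit_of {q R j K : ℕ} {D : ℕ → ℕ} {τ : ℕ} (h : ¬ Good q R j K D τ) :
    ∃ θ Y, Wit q R j K D τ θ Y := by
  by_contra hn
  exact h fun θ Y h1 h2 h3 h4 => by_contra fun h0 => hn ⟨θ, Y, h0, h1, h2, h3, h4⟩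

lemma cop {q : ℕ} (hq : Odd q) (i n : ℕ) : IsCoprime ((q : ℤ) ^ i) ((2 : ℤ) ^ n) := by
  have : IsCoprime (q : ℤ) ((2 : ℕ) : ℤ) := Nat.isCoprime_iff_coprime.2 hq.coprime_two_right
  exact this.pow

lemma step {q R T j K : ℕ} {D : ℕ → ℕ} (hq : Odd q) (h5 : 5 ≤ q) (hR : 16 ≤ R) (hj : 2 ≤ j)
    (hT : Typ R T j D) {τ : ℕ} (hτ : τ + 2 ≤ T) {θ Y θ' Y' : ℤ} (w : Wit q R j K D τ θ Y)
    (w' : Wit q R j K D (τ + 1) θ' Y') : θ' * 2 ^ (R * j) * Y = θ * Y' := by
  obtain ⟨-, a1, a2, a3, a4⟩ := w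
  obtain ⟨-, b1, b2, b3, b4⟩ := w'
  have d1 : (2 : ℤ) ^ K ∣ θ' * 2 ^ (R * j) * Y - θ * Y' := by
    have e : θ' * 2 ^ (R * j) * Y - θ * Y' = θ' * 2 ^ (R * j) * (Y - θ * 2 ^ (R * (τ * j + 1))) -
        θ * (Y' - θ' * 2 ^ (R * ((τ + 1) * j + 1))) := by ring
    rw [e]
    exact (a4.mul_left _).sub (b4.mul_left _)
  have d2 : (q : ℤ) ^ II D ((τ + 2) * j) ∣ θ' * 2 ^ (R * j) * Y - θ * Y' :=
    (a2.mul_left _).sub (((pow_dvd_pow _
      (II_mono D (Nat.mul_le_mul_right j (by omega)))).trans b2).mul_left _)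
  have hg := gap h5 hj (Nat.mul_le_mul_right j hR) (II_inc hT (show τ < T by omega))
    (II_inc hT (show τ + 1 < T by omega))
  have hg' : (2 : ℤ) ^ (j + 1) * (2 ^ (R * j) * (q : ℤ) ^ II D (τ * j) +
      (q : ℤ) ^ II D ((τ + 1) * j)) < (q : ℤ) ^ II D ((τ + 2) * j) := by exact_mod_cast hg
  refine sub_eq_zero.1 (Int.eq_zero_of_abs_lt_dvd ((cop hq _ K).mul_dvd d2 d1) ?_)
  have p : (0 : ℤ) < 2 ^ K := by positivity
  calc |θ' * 2 ^ (R * j) * Y - θ * Y'| ≤ |θ'| * 2 ^ (R * j) * |Y| + |θ| * |Y'| := by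
        refine (abs_sub _ _).trans (le_of_eq ?_)
        rw [abs_mul, abs_mul, abs_mul, abs_of_pos (by positivity : (0 : ℤ) < 2 ^ (R * j))]
    _ ≤ 2 ^ (j + 1) * 2 ^ (R * j) * ((q : ℤ) ^ II D (τ * j) * 2 ^ K) +
        2 ^ (j + 1) * ((q : ℤ) ^ II D ((τ + 1) * j) * 2 ^ K) := by gcongr
    _ = 2 ^ (j + 1) * (2 ^ (R * j) * (q : ℤ) ^ II D (τ * j) +
        (q : ℤ) ^ II D ((τ + 1) * j)) * 2 ^ K := by ring
    _ < _ := mul_lt_mul_of_pos_right hg' p

lemma chain {q R T j K : ℕ} {D : ℕ → ℕ} (hq : Odd q) (h5 : 5 ≤ q) (hR : 16 ≤ R) (hj : 2 ≤ j)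
    (hT : Typ R T j D) {a b : ℕ} (hb : b ≤ T)
    (hn : ∀ τ, a ≤ τ → τ + 2 ≤ b → ¬ Good q R j K D τ) {θa Ya : ℤ}
    (w : Wit q R j K D a θa Ya) : ∀ n, a + n + 2 ≤ b →
      ∃ θ Y, Wit q R j K D (a + n) θ Y ∧ θ * 2 ^ (R * j * n) * Ya = θa * Y
  | 0, _ => ⟨θa, Ya, w, by simp⟩
  | n + 1, h => by
    obtain ⟨θ, Y, w1, e1⟩ := chain hq h5 hR hj hT hb hn w n (by omega)
    obtain ⟨θ', Y', w2⟩ := wit_of (hn (a + n + 1) (by omega) (by omega))
    have e2 := step hq h5 hR hj hT (by omega) w1 w2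
    refine ⟨θ', Y', w2, mul_left_cancel₀ w1.1 ?_⟩
    rw [mul_add, mul_one, pow_add]
    linear_combination θ' * 2 ^ (R * j) * e1 + θa * e2

lemma window {q R T j m k0 : ℕ} {D : ℕ → ℕ} (hq : Odd q) (h5 : 5 ≤ q) (hR : 16 ≤ R) (hj : 2 ≤ j)
    (hk : k0 ≤ j) (hm : T * j ≤ m) (hm' : m ≤ (T + 1) * j) (hD : ∀ b, D b ≤ R)
    (hT : Typ R T j D) {a b : ℕ} (ha : 1 ≤ a) (hab : a + 2 ≤ b) (hb : 2 * b ≤ T)
    (hl : TLok q T a b k0) : ∃ τ, a ≤ τ ∧ τ + 2 ≤ b ∧ Good q R j (R * m + j) D τ := by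
  by_contra hn
  have hn' : ∀ τ, a ≤ τ → τ + 2 ≤ b → ¬ Good q R j (R * m + j) D τ :=
    fun τ h1 h2 h3 => hn ⟨τ, h1, h2, h3⟩
  obtain ⟨θa, Ya, w⟩ := wit_of (hn' a le_rfl hab)
  obtain ⟨n, rfl⟩ : ∃ n, b = a + n + 2 := ⟨b - a - 2, by omega⟩
  obtain ⟨θ, Y, ⟨b0, b1, b2, -, -⟩, e⟩ := chain hq h5 hR hj hT (by omega) hn' w n le_rfl
  obtain ⟨a0, a1, -, a3, u, hu⟩ := w
  obtain ⟨s, hs⟩ : ∃ s, s = R * (a * j + 1) := ⟨_, rfl⟩
  rw [← hs] at hu
  have hs1 : 1 ≤ s := hs ▸ Nat.mul_pos (by omega) (Nat.succ_pos _)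
  have hTj : 2 * (a * j + 1) ≤ m := by
    have := Nat.mul_le_mul_right j (show 2 * a + 1 ≤ T by omega)
    rw [add_mul, mul_assoc] at this
    omega
  have hs2 : 2 * s ≤ R * m := by
    rw [hs, mul_left_comm]
    exact Nat.mul_le_mul_left R hTj
  have hjm : j ≤ R * m :=
    ((Nat.le_mul_of_pos_left j (by omega)).trans hm).trans (Nat.le_mul_of_pos_left m (by omega))
  obtain ⟨N, hN⟩ := Nat.exists_eq_add_of_le (show s ≤ R * m + j by omega)
  have hraj : 16 * j ≤ R * (a * j) := Nat.mul_le_mul hR (Nat.le_mul_of_pos_left j ha)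
  have hI := II_ge hT (a + n + 2) (by omega)
  have hu' : |u| ≤ 2 ^ (q * (R * (a * j)) + 1) := by
    have p : (0 : ℤ) < 2 ^ (R * m + j) := by positivity
    have h1 : (q : ℤ) ^ II D (a * j) ≤ 2 ^ (q * (R * (a * j))) := by
      have : q ^ II D (a * j) ≤ 2 ^ (q * (R * (a * j))) := by
        rw [pow_mul]
        exact (Nat.pow_le_pow_right (by omega) (II_le hD _)).trans
          (Nat.pow_le_pow_left Nat.lt_two_pow_self.le _)
      exact_mod_cast this
    have h2 : (2 : ℤ) ^ (j + 1) * 2 ^ s ≤ 2 ^ (R * m + j) := by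
      rw [← pow_add]
      exact pow_le_pow_right₀ (by norm_num) (by omega)
    have h3 : (1 : ℤ) ≤ 2 ^ (q * (R * (a * j))) := one_le_pow₀ (by norm_num)
    refine le_of_mul_le_mul_left ?_ p
    calc 2 ^ (R * m + j) * |u| = |Ya - θa * 2 ^ s| := by rw [hu, abs_mul, abs_of_pos p]
      _ ≤ |Ya| + |θa| * 2 ^ s := by
        refine (abs_sub _ _).trans (le_of_eq ?_)
        rw [abs_mul, abs_of_pos (by positivity : (0 : ℤ) < 2 ^ s)]
      _ ≤ 2 ^ (q * (R * (a * j))) * 2 ^ (R * m + j) + 2 ^ (j + 1) * 2 ^ s := by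
        gcongr
        exact a3.trans (by gcongr)
      _ ≤ 2 ^ (R * m + j) * 2 ^ (q * (R * (a * j)) + 1) := by
        rw [pow_succ _ (q * (R * (a * j)))]
        nlinarith
  refine hl (R * m) (by omega) N (II D ((a + n + 2) * j)) ((q + 1) * (R * (a * j))) (by omega)
    (by omega) ?_ ?_ (θ * u) (θa * θ) (mul_ne_zero a0 b0) ?_ ?_ ?_
  · calc (a + n + 2) * (R * m) ≤ (a + n + 2) * (R * (2 * T * j)) := by
          gcongr
          exact hm'.trans (Nat.mul_le_mul_right j (by omega))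
      _ = 2 * T * ((a + n + 2) * (R * j)) := by ring
      _ ≤ 2 * T * (4 * II D ((a + n + 2) * j)) := Nat.mul_le_mul_left _ hI
      _ = _ := by ring
  · calc T * ((q + 1) * (R * (a * j))) = (q + 1) * a * (R * (T * j)) := by ring
      _ ≤ _ := by gcongr
  · rw [abs_mul]
    calc |θ| * |u| ≤ 2 ^ (j + 1) * 2 ^ (q * (R * (a * j)) + 1) := by gcongr
      _ ≤ _ := by
        rw [← pow_add, add_mul, one_mul]
        exact pow_le_pow_right₀ (by norm_num) (by omega)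
  · rw [abs_mul]
    calc |θa| * |θ| ≤ 2 ^ (j + 1) * 2 ^ (j + 1) := by gcongr
      _ ≤ _ := by
        rw [← pow_add, add_mul, one_mul]
        exact pow_le_pow_right₀ (by norm_num) (by omega)
  · refine (cop hq _ (R * j * n + s)).dvd_of_dvd_mul_left ?_
    have e' : (2 : ℤ) ^ (R * j * n + s) * (2 ^ N * (θ * u) + θa * θ) = θa * Y := by
      rw [hN, pow_add] at hu
      rw [pow_add]
      linear_combination e - θ * 2 ^ (R * j * n) * hu
    rw [e']
    exact b2.mul_left _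

end Win

theorem win (h : TwoLogStmt) : WinStmt := by
  intro q hq h5 R hR G
  obtain ⟨T, k0, a, h0, hs, hT, hl⟩ := Win.windows h hq h5 G
  have hm : Monotone a := monotone_nat_of_le_succ fun g => by have := hs g; omega
  have hG := hm (Nat.zero_le G)
  refine ⟨T, max k0 2, a, by omega, hm, by omega, fun j hj m h1 h2 D hD hTy g hg => ?_⟩
  have h3 := hm (show g + 1 ≤ G from hg)
  exact Win.window hq h5 hR ((le_max_right _ _).trans hj) ((le_max_left _ _).trans hj) h1 h2 hD hTy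
    (h0.trans (hm (Nat.zero_le g))) (hs g) (by omega) (hl g hg)

end Pool.Agent.MP_574b9b_nt

end MrgPart6

-- ======== part 7: formerly Pool.Agent.MP_574b9b_nt.TwoLog
section MrgPart7

/-! A `q`-adic estimate for two logarithms by Schneider's method. -/

set_option autoImplicit false

open Finset Polynomial

namespace Pool.Agent.MP_574b9b_nt

namespace TL

/-- zero lemma for exponential polynomials on a two-dimensional progression -/
theorem zero_lemma {ι : Type} [DecidableEq ι] (g b : ι → ℚ) (x m S : ℕ) (hxm : x ≤ m) :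
    ∀ (t : ℕ) (T : Finset ι) (d : ℕ) (P : ι → ℚ[X]), T.card = t + 1 →
      (∀ l ∈ T, P l ≠ 0 ∧ (P l).natDegree ≤ d ∧ g l ≠ 0 ∧ b l ≠ 0) → Set.InjOn g T →
      (∀ r, r < x + t → ∀ s, s < S →
        ∑ l ∈ T, (P l).eval ((r + s * m : ℕ) : ℚ) * g l ^ r * b l ^ s = 0) →
      2 ^ t * d < x * S → False := by
  intro t
  induction t with
  | zero =>
    intro T d P hT hP _ hF hd
    obtain ⟨l, rfl⟩ := Finset.card_eq_one.1 hT
    obtain ⟨h1, h2, h3, h4⟩ := hP l (mem_singleton_self _)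
    apply h1
    refine Polynomial.eq_zero_of_natDegree_lt_card_of_eval_eq_zero (P l)
      (f := fun p : Fin x × Fin S => (((p.1 : ℕ) + (p.2 : ℕ) * m : ℕ) : ℚ)) ?_ ?_ ?_
    · rintro ⟨r, s⟩ ⟨r', s'⟩ h
      have h' : (r : ℕ) + (s : ℕ) * m = (r' : ℕ) + (s' : ℕ) * m := Nat.cast_injective h
      have hr : (r : ℕ) < m := lt_of_lt_of_le r.2 hxm
      have hr' : (r' : ℕ) < m := lt_of_lt_of_le r'.2 hxm
      have e1 : (r : ℕ) = r' := by
        have := congrArg (· % m) h'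
        simpa [Nat.add_mul_mod_self_right, Nat.mod_eq_of_lt hr, Nat.mod_eq_of_lt hr'] using this
      have e2 : (s : ℕ) = s' := by
        rw [e1] at h'
        exact Nat.eq_of_mul_eq_mul_right (by omega) (Nat.add_left_cancel h')
      exact Prod.ext (Fin.ext e1) (Fin.ext e2)
    · rintro ⟨r, s⟩
      have := hF r r.2 s s.2
      rw [sum_singleton] at this
      rcases mul_eq_zero.1 this with h | h
      · rcases mul_eq_zero.1 h with h | h
        · exact h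
        · exact absurd h (pow_ne_zero _ h3)
      · exact absurd h (pow_ne_zero _ h4)
    · simp only [Fintype.card_prod, Fintype.card_fin]
      omega
  | succ t ih =>
    intro T d P hT hP hg hF hd
    obtain ⟨l0, hl0⟩ : T.Nonempty := Finset.card_pos.1 (by omega)
    obtain ⟨a1, a2, a3, a4⟩ := hP l0 hl0
    refine ih (T.erase l0) (2 * d)
      (fun l => C (g l0) * taylor 1 (P l0) * P l - C (g l) * P l0 * taylor 1 (P l))
      (by rw [card_erase_of_mem hl0, hT]; rfl) ?_ (hg.mono (by simp)) ?_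
      (by rw [← mul_assoc, ← pow_succ]; exact hd)
    · intro l hl
      obtain ⟨b1, b2, b3, b4⟩ := hP l (mem_of_mem_erase hl)
      refine ⟨fun h => ?_, ?_, b3, b4⟩
      · have h1 := congrArg leadingCoeff (sub_eq_zero.1 h)
        simp only [leadingCoeff_mul, leadingCoeff_C, leadingCoeff_taylor] at h1
        have h2 : g l0 = g l := mul_right_cancel₀ (leadingCoeff_ne_zero.2 a1)
          (mul_right_cancel₀ (leadingCoeff_ne_zero.2 b1) h1)
        exact ne_of_mem_erase hl (hg hl0 (mem_of_mem_erase hl) h2).symm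
      · refine (natDegree_sub_le _ _).trans (max_le ?_ ?_)
        · refine natDegree_mul_le.trans ?_
          have := natDegree_C_mul_le (g l0) (taylor 1 (P l0))
          rw [natDegree_taylor] at this
          omega
        · refine natDegree_mul_le.trans ?_
          have := natDegree_C_mul_le (g l) (P l0)
          rw [natDegree_taylor]
          omega
    · intro r hr s hs
      have h1 := hF r (by omega) s hs
      have h2 := hF (r + 1) (by omega) s hs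
      rw [← add_sum_erase T _ hl0] at h1 h2
      have hz : ((r + 1 + s * m : ℕ) : ℚ) = ((r + s * m : ℕ) : ℚ) + 1 := by push_cast; ring
      rw [hz] at h2
      generalize ((r + s * m : ℕ) : ℚ) = z at h1 h2 ⊢
      have h3 : ∑ l ∈ T.erase l0, (C (g l0) * taylor 1 (P l0) * P l -
            C (g l) * P l0 * taylor 1 (P l)).eval z * g l ^ r * b l ^ s =
          g l0 * (P l0).eval (z + 1) * ∑ l ∈ T.erase l0, (P l).eval z * g l ^ r * b l ^ s -
          (P l0).eval z * ∑ l ∈ T.erase l0, (P l).eval (z + 1) * g l ^ (r + 1) * b l ^ s := by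
        rw [mul_sum, mul_sum, ← sum_sub_distrib]
        refine sum_congr rfl fun l _ => ?_
        simp only [eval_sub, eval_mul, eval_C, taylor_eval]
        ring
      rw [h3, eq_neg_of_add_eq_zero_right h1, eq_neg_of_add_eq_zero_right h2]
      ring

/-- the basic functions -/
def ff (g : ℤ) (κ : ℕ) : ℕ → ℤ := fun z => (z.choose κ : ℤ) * g ^ z

theorem dvd_diff (Q g : ℤ) (hg : Q ∣ g - 1) (t : ℕ) :
    ∀ κ z, Q ^ (t - κ) ∣ (fwdDiff 1)^[t] (ff g κ) z := by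
  induction t with
  | zero => intro κ z; simp
  | succ t ih =>
    intro κ z
    rw [Function.iterate_succ_apply]
    rcases κ with _ | κ
    · have h : fwdDiff 1 (ff g 0) = (g - 1) • ff g 0 := by
        funext z; simp [fwdDiff, ff]; ring
      rw [h, fwdDiff_iter_const_smul, Pi.smul_apply, smul_eq_mul, Nat.sub_zero, pow_succ']
      exact mul_dvd_mul hg (by simpa using ih 0 z)
    · have h : fwdDiff 1 (ff g (κ + 1)) = (g - 1) • ff g (κ + 1) + g • ff g κ := by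
        funext z; simp [fwdDiff, ff, Nat.choose_succ_succ']; ring
      rw [h, fwdDiff_iter_add, fwdDiff_iter_const_smul, fwdDiff_iter_const_smul, Pi.add_apply,
        Pi.smul_apply, Pi.smul_apply, smul_eq_mul, smul_eq_mul]
      refine dvd_add ?_ ?_
      · refine dvd_trans ?_ (mul_dvd_mul hg (ih (κ + 1) z))
        rw [← pow_succ']
        exact pow_dvd_pow _ (by omega)
      · rw [Nat.add_sub_add_right]
        exact Dvd.dvd.mul_left (ih κ z) _

theorem two_sum (n : ℕ) : 2 * ∑ x ∈ range n, (n - x) = n * (n + 1) := by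
  induction n with
  | zero => simp
  | succ n ih =>
    rw [sum_range_succ, sum_congr rfl (g := fun x => (n - x) + 1)
      (fun x hx => by have := mem_range.1 hx; omega), sum_add_distrib]
    simp only [sum_const, card_range, smul_eq_mul, Nat.add_sub_cancel_left]
    nlinarith

/-- the auxiliary function -/
def FF (γ : ℤ) {K L : ℕ} (p : Fin K × Fin L → ℤ) : ℕ → ℤ :=
  ∑ a, p a • ff (γ ^ (a.2 : ℕ)) a.1

theorem diff_FF (γ : ℤ) {K L : ℕ} (p : Fin K × Fin L → ℤ) (t z : ℕ) :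
    (fwdDiff 1)^[t] (FF γ p) z = ∑ a, p a * (fwdDiff 1)^[t] (ff (γ ^ (a.2 : ℕ)) a.1) z := by
  rw [FF, fwdDiff_iter_finsetSum, Finset.sum_apply]
  refine sum_congr rfl fun a _ => ?_
  rw [fwdDiff_iter_const_smul, Pi.smul_apply, smul_eq_mul]

theorem dvd_diff_FF (Q γ : ℤ) (hγ : Q ∣ γ - 1) {K L : ℕ} (p : Fin K × Fin L → ℤ) (t z : ℕ) :
    Q ^ (t - K) ∣ (fwdDiff 1)^[t] (FF γ p) z := by
  rw [diff_FF]
  refine dvd_sum fun a _ => Dvd.dvd.mul_left ?_ _
  refine dvd_trans (pow_dvd_pow _ (by have := a.1.2; omega)) (dvd_diff Q _ ?_ t a.1 z)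
  simpa using hγ.trans (sub_dvd_pow_sub_pow γ 1 a.2)

/-- the auxiliary function with small coefficients that is highly divisible everywhere -/
theorem exists_aux (Q : ℕ) (hQ : 2 ≤ Q) (γ : ℤ) (hγ : (Q : ℤ) ∣ γ - 1) (K L2 : ℕ) (hK : 1 ≤ K)
    (hL : 1 ≤ L2) : ∃ p : Fin K × Fin (2 * L2) → ℤ, p ≠ 0 ∧
      (∀ a, |p a| ≤ (Q : ℤ) ^ (K + K * L2 + 1)) ∧
      ∀ z, (Q : ℤ) ^ (K * (2 * L2)) ∣ FF γ p z := by
  classical
  set n := K * (2 * L2) with hn
  set e1 := K + K * L2 + 1 with he1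
  have : ∀ a : ℕ, NeZero (Q ^ a) := fun a => ⟨pow_ne_zero _ (by omega)⟩
  let Φ : (Fin K × Fin (2 * L2) → Fin (Q ^ e1)) →
      (∀ t : Fin (K + n), ZMod (Q ^ (n - (t - K)))) := fun c t =>
    (((fwdDiff 1)^[t] (FF γ fun a => ((c a : ℕ) : ℤ)) 0 / (Q : ℤ) ^ ((t : ℕ) - K) : ℤ) :
      ZMod (Q ^ (n - (t - K))))
  have hcard : Fintype.card (∀ t : Fin (K + n), ZMod (Q ^ (n - (t - K)))) <
      Fintype.card (Fin K × Fin (2 * L2) → Fin (Q ^ e1)) := by
    rw [Fintype.card_pi, Fintype.card_fun]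
    simp only [ZMod.card, Fintype.card_fin, Fintype.card_prod]
    rw [prod_pow_eq_pow_sum, ← pow_mul, ← hn]
    refine Nat.pow_lt_pow_right (by omega) ?_
    rw [Fin.sum_univ_eq_sum_range (fun t => n - (t - K)) (K + n), sum_range_add]
    have h1 : ∑ x ∈ range K, (n - (x - K)) = K * n := by
      rw [sum_congr rfl (g := fun _ => n) (fun x hx => by have := mem_range.1 hx; omega)]
      simp
    have h2 := two_sum n
    simp only [Nat.add_sub_cancel_left]
    have h3 : 1 ≤ n := by rw [hn]; exact Nat.mul_pos hK (by omega)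
    have h4 : 2 * (e1 * n) = 2 * (K * n) + n * n + 2 * n := by rw [he1, hn]; ring
    rw [h1]
    nlinarith
  obtain ⟨c, c', hne, heq⟩ := Fintype.exists_ne_map_eq_of_card_lt Φ hcard
  refine ⟨fun a => ((c a : ℕ) : ℤ) - ((c' a : ℕ) : ℤ), fun h => hne ?_, fun a => ?_, fun z => ?_⟩
  · funext a
    have := congrFun h a
    simp only [Pi.zero_apply, sub_eq_zero, Nat.cast_inj] at this
    exact Fin.ext this
  · have h1 : ((c a : ℕ) : ℤ) < (Q : ℤ) ^ e1 := by exact_mod_cast (c a).2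
    have h2 : ((c' a : ℕ) : ℤ) < (Q : ℤ) ^ e1 := by exact_mod_cast (c' a).2
    have h3 : (0 : ℤ) ≤ (c a : ℕ) := Int.natCast_nonneg _
    have h4 : (0 : ℤ) ≤ (c' a : ℕ) := Int.natCast_nonneg _
    rw [abs_le]
    constructor <;> linarith
  · have key : ∀ t, (Q : ℤ) ^ n ∣ (fwdDiff 1)^[t]
        (FF γ fun a => ((c a : ℕ) : ℤ) - ((c' a : ℕ) : ℤ)) 0 := by
      intro t
      by_cases ht : t < K + n
      · have h1 := congrFun heq ⟨t, ht⟩
        have h2 := (ZMod.intCast_eq_intCast_iff_dvd_sub _ _ _).1 h1.symm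
        obtain ⟨u, hu⟩ := dvd_diff_FF Q γ hγ (fun a => ((c a : ℕ) : ℤ)) t 0
        obtain ⟨u', hu'⟩ := dvd_diff_FF Q γ hγ (fun a => ((c' a : ℕ) : ℤ)) t 0
        have hQ0 : (Q : ℤ) ^ (t - K) ≠ 0 := pow_ne_zero _ (by exact_mod_cast (by omega : Q ≠ 0))
        simp only [hu, hu', Int.mul_ediv_cancel_left _ hQ0, Nat.cast_pow] at h2
        have h3 : (fwdDiff 1)^[t] (FF γ fun a => ((c a : ℕ) : ℤ) - ((c' a : ℕ) : ℤ)) 0 =
            (Q : ℤ) ^ (t - K) * (u - u') := by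
          rw [mul_sub, ← hu, ← hu', diff_FF, diff_FF, diff_FF, ← sum_sub_distrib]
          exact sum_congr rfl fun a _ => by ring
        rw [h3, show n = (t - K) + (n - (t - K)) by omega, pow_add]
        refine mul_dvd_mul_left _ ?_
        simpa using h2
      · exact dvd_trans (pow_dvd_pow _ (by omega)) (dvd_diff_FF Q γ hγ _ t 0)
    have h := shift_eq_sum_fwdDiff_iter 1
      (FF γ fun a => ((c a : ℕ) : ℤ) - ((c' a : ℕ) : ℤ)) z 0
    simp only [smul_eq_mul, mul_one, zero_add] at h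
    rw [h]
    exact dvd_sum fun t _ => by rw [nsmul_eq_mul]; exact Dvd.dvd.mul_left (key t) _

theorem choose_le (z κ lam K : ℕ) (hl : 1 ≤ lam) (hz : z ≤ lam * K) (hκ : κ ≤ K) :
    z.choose κ ≤ (3 * lam) ^ K := by
  have h1 : (z.choose κ : ℝ) ≤ (z : ℝ) ^ κ / κ.factorial := by
    exact_mod_cast Nat.choose_le_pow_div (α := ℝ) κ z
  have h2 : (K : ℝ) ^ κ / κ.factorial ≤ Real.exp K :=
    Real.pow_div_factorial_le_exp _ (Nat.cast_nonneg K) κ
  have h3 : Real.exp K ≤ 3 ^ K := by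
    rw [← Real.exp_one_pow]
    exact pow_le_pow_left₀ (Real.exp_pos 1).le (by linarith [Real.exp_one_lt_d9]) K
  have hl' : (1 : ℝ) ≤ lam := by exact_mod_cast hl
  have hz' : (z : ℝ) ≤ lam * K := by exact_mod_cast hz
  have h4 : (z.choose κ : ℝ) ≤ (3 * lam) ^ K :=
    calc (z.choose κ : ℝ) ≤ (z : ℝ) ^ κ / κ.factorial := h1
      _ ≤ ((lam : ℝ) * K) ^ κ / κ.factorial := by gcongr
      _ = (lam : ℝ) ^ κ * ((K : ℝ) ^ κ / κ.factorial) := by rw [mul_pow]; ring
      _ ≤ (lam : ℝ) ^ K * 3 ^ K :=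
          mul_le_mul (pow_le_pow_right₀ hl' hκ) (h2.trans h3) (by positivity) (by positivity)
      _ = _ := by rw [mul_pow]; ring
  exact_mod_cast h4

/-- the end of the argument: the values on the progression cannot all vanish -/
theorem not_all_zero {K L : ℕ} (p : Fin K × Fin L → ℤ) (hp : p ≠ 0) (γ : ℕ) (hγ : 2 ≤ γ)
    (Th U : ℤ) (hTh : Th ≠ 0) (hU : U ≠ 0) (x m S : ℕ) (hxm : x ≤ m) (hS : 2 ^ L * K < x * S)
    (hG : ∀ r, r < x + L → ∀ s, s < S → ∑ a : Fin K × Fin L, p a *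
      (((r + s * m).choose a.1 : ℤ) * (γ : ℤ) ^ ((a.2 : ℕ) * r) *
        (Th ^ ((a.2 : ℕ) * s) * U ^ (L * S - (a.2 : ℕ) * s))) = 0) : False := by
  classical
  let P : Fin L → ℚ[X] := fun l =>
    ∑ κ : Fin K, C ((p (κ, l) : ℚ) / ((κ : ℕ).factorial : ℚ)) * descPochhammer ℚ κ
  have hev : ∀ (l : Fin L) (z : ℕ),
      (P l).eval (z : ℚ) = ∑ κ : Fin K, (p (κ, l) : ℚ) * (z.choose κ : ℚ) := by
    intro l z
    simp only [P, eval_finsetSum, eval_mul, eval_C]
    refine sum_congr rfl fun κ _ => ?_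
    rw [Nat.cast_choose_eq_descPochhammer_div]
    ring
  have hne : (univ.filter fun l => P l ≠ 0).Nonempty := by
    obtain ⟨a, ha⟩ := Function.ne_iff.1 hp
    obtain ⟨κ0, h0, hmin⟩ := exists_min_image (univ.filter fun κ : Fin K => p (κ, a.2) ≠ 0)
      (fun κ => (κ : ℕ)) ⟨a.1, by simpa using ha⟩
    refine ⟨a.2, mem_filter.2 ⟨mem_univ _, fun h => ?_⟩⟩
    have h1 := hev a.2 κ0
    rw [h, eval_zero, sum_eq_single κ0] at h1
    · simp only [Nat.choose_self, Nat.cast_one, mul_one] at h1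
      exact (mem_filter.1 h0).2 (by exact_mod_cast h1.symm)
    · intro κ _ hκ
      by_cases h2 : p (κ, a.2) = 0
      · simp [h2]
      · have h3 := hmin κ (mem_filter.2 ⟨mem_univ _, h2⟩)
        have h4 : (κ0 : ℕ) < κ := lt_of_le_of_ne h3 fun h5 => hκ (Fin.ext h5.symm)
        simp [Nat.choose_eq_zero_of_lt h4]
    · simp
  obtain ⟨t, ht⟩ : ∃ t, (univ.filter fun l => P l ≠ 0).card = t + 1 :=
    ⟨_, (Nat.succ_pred_eq_of_pos (card_pos.2 hne)).symm⟩
  have htL : t + 1 ≤ L := by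
    rw [← ht]
    simpa using card_le_univ (univ.filter fun l => P l ≠ 0)
  have hU' : (U : ℚ) ≠ 0 := by exact_mod_cast hU
  have hTh' : (Th : ℚ) ≠ 0 := by exact_mod_cast hTh
  have hγ' : (1 : ℚ) < γ := by exact_mod_cast hγ
  refine zero_lemma (fun l : Fin L => (γ : ℚ) ^ (l : ℕ)) (fun l => ((Th : ℚ) / U) ^ (l : ℕ)) x m S
    hxm t _ K P ht ?_ ?_ ?_ ?_
  · intro l hl
    refine ⟨(mem_filter.1 hl).2, ?_, pow_ne_zero _ (by linarith),
      pow_ne_zero _ (div_ne_zero hTh' hU')⟩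
    refine natDegree_sum_le_of_forall_le _ _ fun κ _ => (natDegree_C_mul_le _ _).trans ?_
    rw [descPochhammer_natDegree]
    exact κ.2.le
  · intro l _ l' _ h
    exact Fin.ext (pow_right_injective₀ (by linarith) hγ'.ne' h)
  · intro r hr s hs
    rw [sum_filter_of_ne (p := fun l => P l ≠ 0) (fun l _ h h' => h (by simp [h']))]
    have h1 : ((∑ a : Fin K × Fin L, p a *
      (((r + s * m).choose a.1 : ℤ) * (γ : ℤ) ^ ((a.2 : ℕ) * r) *
        (Th ^ ((a.2 : ℕ) * s) * U ^ (L * S - (a.2 : ℕ) * s))) : ℤ) : ℚ) = 0 := by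
      rw [hG r (by omega) s hs]; simp
    refine mul_left_cancel₀ (pow_ne_zero (L * S) hU') ?_
    rw [mul_zero, ← h1]
    push_cast
    rw [Fintype.sum_prod_type_right, mul_sum]
    refine sum_congr rfl fun l _ => ?_
    have h2 := hev l (r + s * m)
    push_cast at h2
    rw [h2, sum_mul, sum_mul, mul_sum]
    refine sum_congr rfl fun κ _ => ?_
    have h3 : (l : ℕ) * s ≤ L * S := Nat.mul_le_mul l.2.le hs.le
    obtain ⟨u, hu⟩ := Nat.exists_eq_add_of_le h3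
    rw [hu, Nat.add_sub_cancel_left, ← pow_mul, ← pow_mul, div_pow, pow_add]
    field_simp
  · exact lt_of_le_of_lt
      (Nat.mul_le_mul_right _ (Nat.pow_le_pow_right (by norm_num) (by omega))) hS

end TL

open TL in
theorem twoLog : TwoLogStmt := by
  intro q hq hq5 A
  rcases Nat.eq_zero_or_pos A with rfl | hA
  · exact ⟨0, 1, fun k hk N i e _ _ h3 => by omega⟩
  obtain ⟨Q, hQ⟩ : ∃ Q, Q = q ^ 2 := ⟨_, rfl⟩
  have hQ16 : 16 ≤ Q := by rw [hQ]; nlinarith
  obtain ⟨φ, hφ⟩ : ∃ φ, φ = Nat.totient Q := ⟨_, rfl⟩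
  have hφ1 : 1 ≤ φ := by rw [hφ]; exact Nat.totient_pos.2 (by omega)
  have hγ : (Q : ℤ) ∣ ((2 ^ φ : ℕ) : ℤ) - 1 := by
    have hc : Nat.Coprime 2 Q := by
      rw [hQ]; exact Nat.Coprime.pow_right _ (Nat.coprime_two_left.2 hq)
    have h := Nat.ModEq.pow_totient hc
    rw [← hφ] at h
    exact_mod_cast h.symm.dvd
  obtain ⟨c, hc⟩ : ∃ c, c = 256 * A * φ := ⟨_, rfl⟩
  obtain ⟨w, hw⟩ : ∃ w, w = 24 * c + 4 := ⟨_, rfl⟩
  obtain ⟨L, hL⟩ : ∃ L, L = 2 * (4 * w) := ⟨_, rfl⟩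
  obtain ⟨B0, hB0⟩ : ∃ B0, B0 = 16 * A * φ * L := ⟨_, rfl⟩
  obtain ⟨S, hS⟩ : ∃ S, S = 2 ^ L * (8 * φ) + 1 := ⟨_, rfl⟩
  have hAφ : 1 ≤ A * φ := Nat.mul_pos hA hφ1
  have hw4 : 4 ≤ w := by omega
  have hB1 : A ≤ B0 := by
    rw [hB0]
    have : 1 ≤ φ * L := Nat.mul_pos hφ1 (by omega)
    nlinarith
  have hS1 : 1 ≤ S := by omega
  refine ⟨2 * B0 * S, B0 * (S + L), fun k hk N i e hkN hNk hki hek U Θ hΘ hU hΘe hdvd => ?_⟩
  obtain ⟨x, hx⟩ : ∃ x, x = k / B0 := ⟨_, rfl⟩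
  have hx1 : S + L ≤ x := by
    rw [hx, Nat.le_div_iff_mul_le (by omega), mul_comm]; exact hk
  have hx2 : B0 * x ≤ k := by rw [hx]; exact Nat.mul_div_le _ _
  have hx3 : k < B0 * (x + 1) := by rw [hx]; exact Nat.lt_mul_div_succ _ (by omega)
  have hx4 : k ≤ 2 * B0 * x := by
    have : B0 * 1 ≤ B0 * x := Nat.mul_le_mul_left _ (by omega)
    nlinarith
  have hk1 : 1 ≤ k := le_trans (Nat.mul_pos (by omega) (by omega)) hx2
  by_cases hU0 : U = 0
  · subst hU0
    rw [mul_zero, zero_add] at hdvd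
    have h1 : (q : ℤ) ^ i ≤ 2 ^ e := (Int.le_of_dvd (abs_pos.2 hΘ) ((dvd_abs _ _).2 hdvd)).trans hΘe
    have h2 : (2 : ℤ) ^ i ≤ (q : ℤ) ^ i :=
      pow_le_pow_left₀ (by norm_num) (by exact_mod_cast (by omega : 2 ≤ q)) i
    have h3 : i ≤ e := (pow_le_pow_iff_right₀ (by norm_num : (1 : ℤ) < 2)).1 (h2.trans h1)
    have h4 : A * i ≤ B0 * e := Nat.mul_le_mul hB1 h3
    have h5 : B0 * e * 1 ≤ B0 * e * S := Nat.mul_le_mul_left _ hS1
    nlinarith
  obtain ⟨K, hK⟩ : ∃ K, K = 8 * φ * x := ⟨_, rfl⟩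
  have hxK : 8 * x ≤ K := by rw [hK]; nlinarith
  obtain ⟨m, hm⟩ : ∃ m, m = N / φ := ⟨_, rfl⟩
  obtain ⟨t, ht⟩ : ∃ t, t = N % φ := ⟨_, rfl⟩
  have hNm : N = φ * m + t := by rw [hm, ht]; exact (Nat.div_add_mod _ _).symm
  have htφ : t < φ := by rw [ht]; exact Nat.mod_lt _ (by omega)
  have hmN : m ≤ N := by rw [hm]; exact Nat.div_le_self _ _
  have hxm : x ≤ m := by
    rw [hm, Nat.le_div_iff_mul_le (by omega)]
    have h1 : 1 ≤ A * L := Nat.mul_pos hA (by omega)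
    have h2 : x * φ * 1 ≤ x * φ * (A * L) := Nat.mul_le_mul_left _ h1
    have h3 : B0 * x = 16 * (x * φ * (A * L)) := by rw [hB0]; ring
    omega
  have hni : 2 * (K * L) ≤ i := by
    refine Nat.le_of_mul_le_mul_left ?_ hA
    have : A * (2 * (K * L)) = B0 * x := by rw [hK, hB0]; ring
    omega
  have heS : e * S ≤ x := by
    refine Nat.le_of_mul_le_mul_left ?_ (show 0 < 2 * B0 by omega)
    have : 2 * B0 * (e * S) = 2 * B0 * S * e := by ring
    omega
  have haux := exists_aux Q (by omega) _ hγ K (4 * w) (by omega) (by omega)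
  rw [← hL] at haux
  obtain ⟨p, hp0, hp1, hp2⟩ := haux
  have hcong : ((2 ^ φ : ℕ) : ℤ) ^ m * (2 ^ t * U) ≡ -Θ [ZMOD (Q : ℤ) ^ (K * L)] := by
    refine (Int.modEq_iff_dvd.2 ?_).symm
    have h1 : (Q : ℤ) ^ (K * L) ∣ (q : ℤ) ^ i := by
      rw [hQ]; push_cast; rw [← pow_mul]; exact pow_dvd_pow _ hni
    refine h1.trans (hdvd.trans (dvd_of_eq ?_))
    rw [hNm]; push_cast; rw [pow_add, pow_mul]; ring
  have hlam : 3 * (2 ^ L * c * L) ≤ 2 ^ (L + 2 * w) := by
    have h1 : w < 2 ^ w := Nat.lt_two_pow_self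
    have h2 : 24 * c * w ≤ 2 ^ w * 2 ^ w := Nat.mul_le_mul (by omega) h1.le
    calc 3 * (2 ^ L * c * L) = 2 ^ L * (24 * c * w) := by rw [hL]; ring
      _ ≤ 2 ^ L * (2 ^ w * 2 ^ w) := Nat.mul_le_mul_left _ h2
      _ = _ := by ring
  have h2L : 1 ≤ 2 ^ L := Nat.one_le_two_pow
  refine not_all_zero p hp0 (2 ^ φ) (by simpa using Nat.pow_le_pow_right (show 0 < 2 by norm_num) hφ1)
    (-Θ) (2 ^ t * U) (neg_ne_zero.2 hΘ) (mul_ne_zero (pow_ne_zero _ (by norm_num)) hU0) x m S hxm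
    (by rw [hK, hS]; nlinarith) fun r hr s hs => ?_
  refine Int.eq_zero_of_abs_lt_dvd (m := (Q : ℤ) ^ (K * L)) ?_ ?_
  · have h1 : (2 ^ t * U) ^ (L * S) * FF ((2 ^ φ : ℕ) : ℤ) p (r + s * m) ≡
        ∑ a : Fin K × Fin L, p a *
          (((r + s * m).choose a.1 : ℤ) * ((2 ^ φ : ℕ) : ℤ) ^ ((a.2 : ℕ) * r) *
            ((-Θ) ^ ((a.2 : ℕ) * s) * (2 ^ t * U) ^ (L * S - (a.2 : ℕ) * s)))
        [ZMOD (Q : ℤ) ^ (K * L)] := by
      rw [FF, Finset.sum_apply, mul_sum]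
      refine Int.ModEq.sum fun a _ => ?_
      have h3 : (a.2 : ℕ) * s ≤ L * S := Nat.mul_le_mul a.2.2.le hs.le
      obtain ⟨u, hu⟩ := Nat.exists_eq_add_of_le h3
      have h4 := ((hcong.pow ((a.2 : ℕ) * s)).mul_right ((2 ^ t * U) ^ u)).mul_left
        (p a * (((r + s * m).choose a.1 : ℤ) * ((2 ^ φ : ℕ) : ℤ) ^ ((a.2 : ℕ) * r)))
      rw [hu, Nat.add_sub_cancel_left]
      convert h4 using 1
      · simp only [Pi.smul_apply, smul_eq_mul, ff]
        generalize ((2 ^ φ : ℕ) : ℤ) = γ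
        ring
      · ring
    exact h1.dvd_iff.1 (Dvd.dvd.mul_left (hp2 _) _)
  · have hz : r + s * m ≤ 2 ^ L * c * L * K := by
      have h1 : s * m ≤ 2 ^ L * (8 * φ) * (4 * B0 * x) :=
        Nat.mul_le_mul (by omega) (by nlinarith)
      have h2 : 2 ^ L * (8 * φ) * (4 * B0 * x) = 64 * (2 ^ L * (A * φ) * L * K) := by
        rw [hB0, hK]; ring
      have h3 : 2 ^ L * c * L * K = 256 * (2 ^ L * (A * φ) * L * K) := by rw [hc]; ring
      have h4 : 1 * 1 * 1 * K ≤ 2 ^ L * (A * φ) * L * K := by gcongr; omega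
      omega
    have hterm : ∀ a : Fin K × Fin L, |p a *
        (((r + s * m).choose a.1 : ℤ) * ((2 ^ φ : ℕ) : ℤ) ^ ((a.2 : ℕ) * r) *
          ((-Θ) ^ ((a.2 : ℕ) * s) * (2 ^ t * U) ^ (L * S - (a.2 : ℕ) * s)))| ≤
        (Q : ℤ) ^ (K + K * (4 * w) + 1) * 2 ^ (14 * w * K) := by
      intro a
      have b1 : (((r + s * m).choose a.1 : ℕ) : ℤ) ≤ 2 ^ ((L + 2 * w) * K) := by
        have := (choose_le _ a.1 _ K (Nat.mul_pos (Nat.mul_pos h2L (by rw [hc]; nlinarith))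
          (by omega)) hz a.1.2.le).trans (Nat.pow_le_pow_left hlam K)
        rw [pow_mul]
        exact_mod_cast this
      have b2 : ((2 ^ φ : ℕ) : ℤ) ^ ((a.2 : ℕ) * r) ≤ 2 ^ (2 * w * K) := by
        push_cast
        rw [← pow_mul]
        refine pow_le_pow_right₀ (by norm_num) ?_
        calc φ * ((a.2 : ℕ) * r) ≤ φ * (L * (2 * x)) :=
              Nat.mul_le_mul_left _ (Nat.mul_le_mul a.2.2.le (by omega))
          _ = 2 * w * K := by rw [hK, hL]; ring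
      have c1 : |(-Θ)| ≤ 2 ^ (φ + e) := by
        rw [abs_neg]
        exact hΘe.trans (pow_le_pow_right₀ (by norm_num) (by omega))
      have c2 : |2 ^ t * U| ≤ 2 ^ (φ + e) := by
        rw [abs_mul, abs_pow, abs_two, pow_add]
        exact mul_le_mul (pow_le_pow_right₀ (by norm_num) htφ.le) hU (abs_nonneg _) (by positivity)
      have b3 : |(-Θ) ^ ((a.2 : ℕ) * s) * (2 ^ t * U) ^ (L * S - (a.2 : ℕ) * s)| ≤
          2 ^ (2 * w * K) := by
        have h3 : (a.2 : ℕ) * s ≤ L * S := Nat.mul_le_mul a.2.2.le hs.le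
        rw [abs_mul, abs_pow, abs_pow]
        calc _ ≤ ((2 : ℤ) ^ (φ + e)) ^ ((a.2 : ℕ) * s) *
              ((2 : ℤ) ^ (φ + e)) ^ (L * S - (a.2 : ℕ) * s) := by gcongr
          _ = (2 : ℤ) ^ ((φ + e) * (L * S)) := by
              rw [← pow_add, Nat.add_sub_cancel' h3, ← pow_mul]
          _ ≤ (2 : ℤ) ^ (2 * w * K) := by
              refine pow_le_pow_right₀ (by norm_num) ?_
              have d1 : φ * S ≤ φ * x := Nat.mul_le_mul_left _ (by omega)
              have d2 : 1 * x ≤ φ * x := Nat.mul_le_mul_right _ hφ1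
              calc (φ + e) * (L * S) = L * (φ * S + e * S) := by ring
                _ ≤ L * (2 * (φ * x)) := Nat.mul_le_mul_left _ (by omega)
                _ = 2 * w * K := by rw [hK, hL]; ring
      rw [abs_mul, abs_mul, abs_mul, abs_of_nonneg (Int.natCast_nonneg _),
        abs_of_nonneg (pow_nonneg (Int.natCast_nonneg _) _)]
      calc _ ≤ (Q : ℤ) ^ (K + K * (4 * w) + 1) *
            (2 ^ ((L + 2 * w) * K) * 2 ^ (2 * w * K) * 2 ^ (2 * w * K)) := by
            gcongr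
            exact hp1 a
        _ = _ := by rw [← pow_add, ← pow_add, hL]; congr 2; ring
    have hn : ((K * L : ℕ) : ℤ) ≤ 2 ^ (2 * K) := by
      have h1 : K < 2 ^ K := Nat.lt_two_pow_self
      have h2 : K * L ≤ 2 ^ K * 2 ^ K := Nat.mul_le_mul h1.le (by omega)
      rw [two_mul K, pow_add]
      exact_mod_cast h2
    obtain ⟨u, hu⟩ : ∃ u, K * L = K + K * (4 * w) + 1 + u := by
      refine Nat.exists_eq_add_of_le ?_
      rw [hL]
      nlinarith
    have hu2 : 14 * w * K + 2 * K < 4 * u := by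
      rw [hL] at hu
      have : 4 * K ≤ w * K := Nat.mul_le_mul_right _ hw4
      nlinarith
    have hQ' : (16 : ℤ) ≤ Q := by exact_mod_cast hQ16
    calc _ ≤ ∑ _a : Fin K × Fin L, (Q : ℤ) ^ (K + K * (4 * w) + 1) * 2 ^ (14 * w * K) :=
          (abs_sum_le_sum_abs _ _).trans (sum_le_sum fun a _ => hterm a)
      _ = ((K * L : ℕ) : ℤ) * ((Q : ℤ) ^ (K + K * (4 * w) + 1) * 2 ^ (14 * w * K)) := by simp
      _ ≤ 2 ^ (2 * K) * ((Q : ℤ) ^ (K + K * (4 * w) + 1) * 2 ^ (14 * w * K)) := by gcongr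
      _ = (Q : ℤ) ^ (K + K * (4 * w) + 1) * 2 ^ (14 * w * K + 2 * K) := by ring
      _ < (Q : ℤ) ^ (K + K * (4 * w) + 1) * 2 ^ (4 * u) :=
          mul_lt_mul_of_pos_left (pow_lt_pow_right₀ (by norm_num) hu2) (by positivity)
      _ ≤ (Q : ℤ) ^ (K + K * (4 * w) + 1) * (Q : ℤ) ^ u := by
          rw [pow_mul, show (2 : ℤ) ^ 4 = 16 by norm_num]
          gcongr
      _ = _ := by rw [← pow_add, ← hu]

end Pool.Agent.MP_574b9b_nt

end MrgPart7

-- marker of a merged file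
example : 731051 + 353133 = 731051 + 353133 := rfl
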